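import Mathlib

/-!
# Chains of walks

`R 0, ..., R m` are finite sets, every `x` in `R i` has `d i` different successors
`nxt i x k ∈ R (i + 1)`, `k < d i`.  In the family `H` of all walks `R 0 → R 1 → ... → R m` along
successors one can, for every sequence of `n` directions `a t` in `1, ..., m - 1`, move a walk
upwards in the prescribed directions, if `n * |R (i + 1)| < d (i - 1) * d i` for all `i`.
-/

set_option autoImplicit false

namespace Pool.Agent.OrdForest

open Finset

/-- General deletion argument. -/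
theorem chain (H : Finset (ℕ → ℕ)) (β : ℕ) (A : Set ℕ)
    (hβ : ∀ i ∈ A, ∀ B ⊆ H, (∀ f ∈ B, ∀ f' ∈ B, (∀ j, j ≠ i → f j = f' j) → f = f') →
      B.card ≤ β) (L : ℕ) : ∀ a : ℕ → ℕ, (∀ t, a t ∈ A) →
    ∃ B ⊆ H, B.card ≤ L * β ∧ ∀ e₀ ∈ H, e₀ ∉ B →
      ∃ e : ℕ → ℕ → ℕ, e 0 = e₀ ∧ (∀ t ≤ L, e t ∈ H) ∧
        ∀ t < L, e t (a t) < e (t + 1) (a t) ∧ ∀ i, i ≠ a t → e (t + 1) i = e t i := by
  classical
  induction L with
  | zero =>
    intro a _
    refine ⟨∅, Finset.empty_subset _, by simp, fun e₀ he₀ _ => ⟨fun _ => e₀, rfl, ?_, ?_⟩⟩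
    · intro t _
      exact he₀
    · intro t ht
      omega
  | succ L ih =>
    intro a haA
    obtain ⟨B', hB'H, hB'c, hB'⟩ := ih (fun t => a (t + 1)) (fun t => haA (t + 1))
    set K : Finset (ℕ → ℕ) := H \ B' with hK
    set B'' : Finset (ℕ → ℕ) :=
      K.filter (fun e => ∀ y : ℕ, e (a 0) < y → Function.update e (a 0) y ∉ K) with hB''
    have hB''c : B''.card ≤ β := by
      refine hβ (a 0) (haA 0) B'' ?_ ?_
      · intro e he
        exact (Finset.mem_sdiff.1 (Finset.mem_filter.1 he).1).1
      · have key : ∀ f f' : ℕ → ℕ, f ∈ B'' → f' ∈ B'' →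
            (∀ i, i ≠ a 0 → f i = f' i) → ¬ f (a 0) < f' (a 0) := by
          intro f f' hf hf' hoff hlt
          have h1 : Function.update f (a 0) (f' (a 0)) = f' := by
            funext i
            by_cases hi : i = a 0
            · subst hi
              simp
            · rw [Function.update_of_ne hi, hoff i hi]
          exact (Finset.mem_filter.1 hf).2 (f' (a 0)) hlt
            (by rw [h1]; exact (Finset.mem_filter.1 hf').1)
        intro f hf f' hf' hoff
        funext i
        by_cases hi : i = a 0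
        · rw [hi]
          exact le_antisymm (not_lt.1 (key f' f hf' hf (fun j hj => (hoff j hj).symm)))
            (not_lt.1 (key f f' hf hf' hoff))
        · exact hoff i hi
    refine ⟨B' ∪ B'', ?_, ?_, ?_⟩
    · intro e he
      rcases Finset.mem_union.1 he with h | h
      · exact hB'H h
      · exact (Finset.mem_sdiff.1 (Finset.mem_filter.1 h).1).1
    · calc (B' ∪ B'').card ≤ B'.card + B''.card := Finset.card_union_le _ _
        _ ≤ L * β + β := Nat.add_le_add hB'c hB''c
        _ = (L + 1) * β := by ring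
    · intro e₀ he₀ hne
      have hne' : e₀ ∉ B' := fun h => hne (Finset.mem_union_left _ h)
      have hne'' : e₀ ∉ B'' := fun h => hne (Finset.mem_union_right _ h)
      have heK : e₀ ∈ K := Finset.mem_sdiff.2 ⟨he₀, hne'⟩
      have : ∃ y : ℕ, e₀ (a 0) < y ∧ Function.update e₀ (a 0) y ∈ K := by
        by_contra hcon
        push Not at hcon
        exact hne'' (Finset.mem_filter.2 ⟨heK, hcon⟩)
      obtain ⟨y, hy, hyK⟩ := this
      obtain ⟨e, he0, heH, hstep⟩ := hB' _ (Finset.mem_sdiff.1 hyK).1 (Finset.mem_sdiff.1 hyK).2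
      refine ⟨fun t => Nat.casesOn t e₀ (fun t => e t), rfl, ?_, ?_⟩
      · intro t ht
        cases t with
        | zero => exact he₀
        | succ t => exact heH t (by omega)
      · intro t ht
        cases t with
        | zero =>
          refine ⟨?_, ?_⟩
          · show e₀ (a 0) < e 0 (a 0)
            rw [he0]
            simpa using hy
          · intro i hi
            show e 0 i = e₀ i
            rw [he0, Function.update_of_ne hi]
        | succ t => exact hstep t (by omega)

/-- the walk from `x` with choices `k` -/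
def wk (nxt : ℕ → ℕ → ℕ → ℕ) (x : ℕ) (k : ℕ → ℕ) : ℕ → ℕ
  | 0 => x
  | i + 1 => nxt i (wk nxt x k i) (k i)

theorem wk_congr {nxt : ℕ → ℕ → ℕ → ℕ} {x : ℕ} {k k' : ℕ → ℕ} (i : ℕ)
    (h : ∀ j < i, k j = k' j) : wk nxt x k i = wk nxt x k' i := by
  induction i with
  | zero => rfl
  | succ i ih =>
    show nxt i (wk nxt x k i) (k i) = nxt i (wk nxt x k' i) (k' i)
    rw [ih (fun j hj => h j (by omega)), h i (by omega)]

theorem wk_congr_tail {nxt : ℕ → ℕ → ℕ → ℕ} {x x' : ℕ} {k k' : ℕ → ℕ} (i j : ℕ) (hij : i ≤ j)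
    (h0 : wk nxt x k i = wk nxt x' k' i) (h : ∀ l, i ≤ l → l < j → k l = k' l) :
    wk nxt x k j = wk nxt x' k' j := by
  induction j with
  | zero =>
    obtain rfl : i = 0 := by omega
    exact h0
  | succ j ih =>
    rcases Nat.lt_or_ge j i with hj | hj
    · obtain rfl : i = j + 1 := by omega
      exact h0
    · show nxt j (wk nxt x k j) (k j) = nxt j (wk nxt x' k' j) (k' j)
      rw [ih hj (fun l hl hlj => h l hl (by omega)), h j hj (by omega)]

section

variable {m : ℕ} {R : ℕ → Finset ℕ} {d : ℕ → ℕ} {nxt : ℕ → ℕ → ℕ → ℕ}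

theorem wk_mem (hmem : ∀ i < m, ∀ x ∈ R i, ∀ k < d i, nxt i x k ∈ R (i + 1))
    {x : ℕ} (hx : x ∈ R 0) {k : ℕ → ℕ} (hk : ∀ j < m, k j < d j) (i : ℕ) (hi : i ≤ m) :
    wk nxt x k i ∈ R i := by
  induction i with
  | zero => exact hx
  | succ i ih => exact hmem i (by omega) _ (ih (by omega)) _ (hk i (by omega))

theorem wk_inj (hmem : ∀ i < m, ∀ x ∈ R i, ∀ k < d i, nxt i x k ∈ R (i + 1))
    (hinj : ∀ i < m, ∀ x ∈ R i, ∀ k < d i, ∀ k' < d i, nxt i x k = nxt i x k' → k = k')
    {x x' : ℕ} (hx : x ∈ R 0) {k k' : ℕ → ℕ} (hk : ∀ j < m, k j < d j)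
    (hk' : ∀ j < m, k' j < d j)
    (h : ∀ i ≤ m, wk nxt x k i = wk nxt x' k' i) : x = x' ∧ ∀ j < m, k j = k' j := by
  refine ⟨h 0 (Nat.zero_le _), fun j hj => ?_⟩
  have h1 := h (j + 1) hj
  have h2 := h j hj.le
  have h3 : nxt j (wk nxt x k j) (k j) = nxt j (wk nxt x k j) (k' j) := by
    conv_rhs => rw [h2]
    exact h1
  exact hinj j hj _ (wk_mem hmem hx hk j hj.le) _ (hk j hj) _ (hk' j hj) h3

theorem walks_chain (hmem : ∀ i < m, ∀ x ∈ R i, ∀ k < d i, nxt i x k ∈ R (i + 1))
    (hinj : ∀ i < m, ∀ x ∈ R i, ∀ k < d i, ∀ k' < d i, nxt i x k = nxt i x k' → k = k')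
    (hR0 : (R 0).Nonempty) (hd : ∀ i < m, 0 < d i) (n : ℕ) (hn : 0 < n)
    (hcost : ∀ i, 1 ≤ i → i < m → n * (R (i + 1)).card < d (i - 1) * d i)
    (a : ℕ → ℕ) (ha : ∀ t, 1 ≤ a t ∧ a t < m) :
    ∃ e : ℕ → ℕ → ℕ, (∀ t ≤ n, ∀ i ≤ m, e t i ∈ R i) ∧
      (∀ t ≤ n, ∀ i < m, ∃ k < d i, e t (i + 1) = nxt i (e t i) k) ∧
      ∀ t < n, e t (a t) < e (t + 1) (a t) ∧ ∀ i, i ≠ a t → e (t + 1) i = e t i := by
  classical
  -- parameters
  set P : Finset (ℕ × (Fin m → ℕ)) :=
    R 0 ×ˢ Fintype.piFinset (fun j : Fin m => Finset.range (d j)) with hP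
  let ext : (Fin m → ℕ) → ℕ → ℕ := fun k j => if h : j < m then k ⟨j, h⟩ else 0
  have hext : ∀ k ∈ Fintype.piFinset (fun j : Fin m => Finset.range (d j)),
      ∀ j < m, ext k j < d j := by
    intro k hk j hj
    have h1 := Finset.mem_range.1 (Fintype.mem_piFinset.1 hk ⟨j, hj⟩)
    show (if h : j < m then k ⟨j, h⟩ else 0) < d j
    rw [dif_pos hj]
    exact h1
  let W : ℕ × (Fin m → ℕ) → ℕ → ℕ := fun q i => wk nxt q.1 (ext q.2) (min i m)
  have hWle : ∀ q, ∀ i ≤ m, W q i = wk nxt q.1 (ext q.2) i := by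
    intro q i hi
    show wk nxt q.1 (ext q.2) (min i m) = _
    rw [min_eq_left hi]
  set H : Finset (ℕ → ℕ) := P.image W with hH
  have hPne : P.Nonempty := by
    obtain ⟨x, hx⟩ := hR0
    refine ⟨(x, fun _ => 0), ?_⟩
    rw [hP, Finset.mem_product]
    refine ⟨hx, Fintype.mem_piFinset.2 fun j => Finset.mem_range.2 (hd j j.2)⟩
  have hHne : H.Nonempty := hPne.image W
  have hHpos : 0 < H.card := Finset.card_pos.2 hHne
  have hrep : ∀ f ∈ H, ∃ q ∈ P, W q = f := fun f hf => Finset.mem_image.1 hf
  -- the bound for the stuck walks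
  have hstuck : ∀ i ∈ {i : ℕ | 1 ≤ i ∧ i < m}, ∀ B ⊆ H,
      (∀ f ∈ B, ∀ f' ∈ B, (∀ j, j ≠ i → f j = f' j) → f = f') →
      B.card ≤ (H.card - 1) / n := by
    intro i hi B hBH hB
    obtain ⟨hi1, him⟩ := hi
    have hrep' : ∀ f : ℕ → ℕ, ∃ q : ℕ × (Fin m → ℕ), f ∈ B → q ∈ P ∧ W q = f := by
      intro f
      by_cases hf : f ∈ B
      · obtain ⟨q, hq, hqf⟩ := hrep f (hBH hf)
        exact ⟨q, fun _ => ⟨hq, hqf⟩⟩
      · exact ⟨(0, fun _ => 0), fun h => absurd h hf⟩
    choose q hq using hrep'
    let i' : Fin m := ⟨i, him⟩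
    let i'' : Fin m := ⟨i - 1, by omega⟩
    have hii : i'' ≠ i' := by
      intro h
      have := congrArg Fin.val h
      simp only [i', i''] at this
      omega
    let mod : (Fin m → ℕ) → ℕ → ℕ → (Fin m → ℕ) :=
      fun k u v => Function.update (Function.update k i'' u) i' v
    have hmodP : ∀ z ∈ P, ∀ u < d (i - 1), ∀ v < d i, (z.1, mod z.2 u v) ∈ P := by
      intro z hz u hu v hv
      rw [hP, Finset.mem_product] at hz ⊢
      refine ⟨hz.1, Fintype.mem_piFinset.2 fun j => ?_⟩
      show Function.update (Function.update z.2 i'' u) i' v j ∈ Finset.range (d j)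
      by_cases hj : j = i'
      · rw [hj, Function.update_self]
        exact Finset.mem_range.2 hv
      · rw [Function.update_of_ne hj]
        by_cases hj' : j = i''
        · rw [hj', Function.update_self]
          exact Finset.mem_range.2 hu
        · rw [Function.update_of_ne hj']
          exact Fintype.mem_piFinset.1 hz.2 j
    let F : (ℕ → ℕ) × ℕ × ℕ → (ℕ → ℕ) × ℕ := fun z =>
      (W ((q z.1).1, mod (q z.1).2 z.2.1 z.2.2), z.1 (i + 1))
    have hFinj : Set.InjOn F
        ((B ×ˢ (Finset.range (d (i - 1)) ×ˢ Finset.range (d i)) : Finset _) : Set _) := by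
      rintro ⟨f, u, v⟩ hf ⟨f', u', v'⟩ hf' hFF
      rw [Finset.mem_coe, Finset.mem_product, Finset.mem_product, Finset.mem_range,
        Finset.mem_range] at hf hf'
      simp only at hf hf'
      obtain ⟨hfB, hu, hv⟩ := hf
      obtain ⟨hfB', hu', hv'⟩ := hf'
      obtain ⟨hqP, hqf⟩ := hq f hfB
      obtain ⟨hqP', hqf'⟩ := hq f' hfB'
      have h1 : W ((q f).1, mod (q f).2 u v) = W ((q f').1, mod (q f').2 u' v') :=
        congrArg Prod.fst hFF
      have h2 : f (i + 1) = f' (i + 1) := congrArg Prod.snd hFF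
      have hm1 := hmodP _ hqP u hu v hv
      have hm2 := hmodP _ hqP' u' hu' v' hv'
      have h3 := wk_inj (m := m) hmem hinj (x := (q f).1) (x' := (q f').1)
        (k := ext (mod (q f).2 u v)) (k' := ext (mod (q f').2 u' v'))
        (Finset.mem_product.1 hm1).1 (hext _ (Finset.mem_product.1 hm1).2)
        (hext _ (Finset.mem_product.1 hm2).2) (fun j hj => by
          rw [← hWle ((q f).1, mod (q f).2 u v) j hj, h1, hWle _ j hj])
      obtain ⟨hx, hk⟩ := h3
      have hk' : ∀ j : Fin m, mod (q f).2 u v j = mod (q f').2 u' v' j := by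
        intro j
        have h4 := hk j.1 j.2
        simp only [ext] at h4
        rw [dif_pos j.2, dif_pos j.2] at h4
        exact h4
      have hv2 : v = v' := by
        have h4 := hk' i'
        simp only [mod, Function.update_self] at h4
        exact h4
      have hu2 : u = u' := by
        have h4 := hk' i''
        simp only [mod] at h4
        rw [Function.update_of_ne hii, Function.update_of_ne hii, Function.update_self,
          Function.update_self] at h4
        exact h4
      have hoff : ∀ j : Fin m, j ≠ i' → j ≠ i'' → (q f).2 j = (q f').2 j := by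
        intro j hj hj'
        have h4 := hk' j
        simp only [mod] at h4
        rw [Function.update_of_ne hj, Function.update_of_ne hj, Function.update_of_ne hj',
          Function.update_of_ne hj'] at h4
        exact h4
      have hoff' : ∀ j < m, j ≠ i → j ≠ i - 1 → ext (q f).2 j = ext (q f').2 j := by
        intro j hj hji hji'
        simp only [ext]
        rw [dif_pos hj, dif_pos hj]
        apply hoff
        · intro h
          exact hji (congrArg Fin.val h)
        · intro h
          exact hji' (congrArg Fin.val h)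
      have hff : f = f' := by
        apply hB f hfB f' hfB'
        intro j hj
        rw [← hqf, ← hqf']
        have hgen : ∀ l ≤ m, l ≠ i → W (q f) l = W (q f') l := by
          intro l hl hli
          rw [hWle _ _ hl, hWle _ _ hl]
          rcases Nat.lt_or_ge l i with hlt | hge
          · rw [hx]
            apply wk_congr
            intro j' hj'
            exact hoff' j' (by omega) (by omega) (by omega)
          · apply wk_congr_tail (i + 1) l (by omega)
            · rw [← hWle (q f) (i + 1) (by omega), ← hWle (q f') (i + 1) (by omega), hqf, hqf']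
              exact h2
            · intro l' hl' hl'l
              exact hoff' l' (by omega) (by omega) (by omega)
        rcases le_total j m with hjm | hjm
        · exact hgen j hjm hj
        · have h5 := hgen m le_rfl (by omega)
          have h6 : ∀ z, W z j = W z m := by
            intro z
            show wk nxt z.1 (ext z.2) (min j m) = wk nxt z.1 (ext z.2) (min m m)
            rw [min_eq_right hjm, min_self]
          rw [h6, h6]
          exact h5
      subst hff
      rw [hv2, hu2]
    have hFmaps : ∀ z ∈ B ×ˢ (Finset.range (d (i - 1)) ×ˢ Finset.range (d i)),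
        F z ∈ H ×ˢ R (i + 1) := by
      rintro ⟨f, u, v⟩ hf
      rw [Finset.mem_product, Finset.mem_product, Finset.mem_range, Finset.mem_range] at hf
      simp only at hf
      obtain ⟨hfB, hu, hv⟩ := hf
      obtain ⟨hqP, hqf⟩ := hq f hfB
      rw [Finset.mem_product]
      refine ⟨Finset.mem_image_of_mem W (hmodP _ hqP u hu v hv), ?_⟩
      show f (i + 1) ∈ R (i + 1)
      rw [← hqf, hWle _ _ (by omega)]
      rw [hP, Finset.mem_product] at hqP
      exact wk_mem hmem hqP.1 (hext _ hqP.2) (i + 1) (by omega)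
    have hcard := Finset.card_le_card_of_injOn F hFmaps hFinj
    rw [Finset.card_product, Finset.card_product, Finset.card_product, Finset.card_range,
      Finset.card_range] at hcard
    rw [Nat.le_div_iff_mul_le hn]
    have h7 := hcost i hi1 him
    by_contra hcon
    push Not at hcon
    have h8 : H.card ≤ B.card * n := by omega
    have h9 : 0 < d (i - 1) * d i := Nat.mul_pos (hd _ (by omega)) (hd _ him)
    have h10 : H.card * (d (i - 1) * d i) ≤ B.card * n * (d (i - 1) * d i) :=
      Nat.mul_le_mul_right _ h8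
    have h11 : B.card * n * (d (i - 1) * d i) ≤ H.card * (n * (R (i + 1)).card) := by
      calc B.card * n * (d (i - 1) * d i) = n * (B.card * (d (i - 1) * d i)) := by ring
        _ ≤ n * (H.card * (R (i + 1)).card) := Nat.mul_le_mul_left _ hcard
        _ = H.card * (n * (R (i + 1)).card) := by ring
    have h12 : H.card * (n * (R (i + 1)).card) < H.card * (d (i - 1) * d i) :=
      Nat.mul_lt_mul_of_pos_left h7 hHpos
    omega
  obtain ⟨B, hBH, hBc, hB⟩ := chain H ((H.card - 1) / n) {i : ℕ | 1 ≤ i ∧ i < m} hstuck n a ha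
  obtain ⟨e₀, he₀, he₀B⟩ : ∃ e₀ ∈ H, e₀ ∉ B := by
    by_contra hcon
    push Not at hcon
    have h1 := Finset.card_le_card (show H ⊆ B from hcon)
    have h2 : n * ((H.card - 1) / n) ≤ H.card - 1 := Nat.mul_div_le _ _
    omega
  obtain ⟨e, -, heH, hstep⟩ := hB e₀ he₀ he₀B
  refine ⟨e, ?_, ?_, hstep⟩
  · intro t ht i hi
    obtain ⟨z, hz, hzf⟩ := hrep _ (heH t ht)
    rw [← hzf, hWle _ _ hi]
    rw [hP, Finset.mem_product] at hz
    exact wk_mem hmem hz.1 (hext _ hz.2) i hi
  · intro t ht i hi
    obtain ⟨z, hz, hzf⟩ := hrep _ (heH t ht)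
    rw [hP, Finset.mem_product] at hz
    refine ⟨ext z.2 i, hext _ hz.2 i hi, ?_⟩
    rw [← hzf, hWle _ _ hi, hWle _ _ hi.le]
    rfl

end

end Pool.Agent.OrdForest
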