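import Mathlib
import Pool.Agent.Lib.MP_5b01b8_co_FO.Walks

/-!
# Blocks and slots with little noise between consecutive slots
-/

set_option autoImplicit false

namespace Pool.Agent.OrdForest

open Finset

/-- a set with `K * M` elements contains `K` consecutive blocks with `M` elements -/
theorem exists_blocks (X : Finset ℕ) (K M : ℕ) (h : K * M ≤ X.card) :
    ∃ B : ℕ → Finset ℕ, (∀ u < K, B u ⊆ X ∧ (B u).card = M) ∧
      ∀ u v, u < v → v < K → ∀ x ∈ B u, ∀ y ∈ B v, x < y := by
  classical
  let g : Fin X.card ↪o ℕ := X.orderEmbOfFin rfl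
  have hidx : ∀ u < K, ∀ j : Fin M, u * M + j.1 < X.card := by
    intro u hu j
    have h1 : (u + 1) * M ≤ K * M := Nat.mul_le_mul_right _ hu
    have h2 : (u + 1) * M = u * M + M := by ring
    have h3 := j.2
    omega
  refine ⟨fun u => if hu : u < K then
    (Finset.univ : Finset (Fin M)).image (fun j => g ⟨u * M + j.1, hidx u hu j⟩) else ∅, ?_, ?_⟩
  · intro u hu
    simp only [dif_pos hu]
    refine ⟨?_, ?_⟩
    · intro x hx
      obtain ⟨j, -, rfl⟩ := Finset.mem_image.1 hx
      exact X.orderEmbOfFin_mem rfl _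
    · rw [Finset.card_image_of_injective, Finset.card_univ, Fintype.card_fin]
      intro j j' hjj
      have h1 := g.injective hjj
      have h2 := congrArg Fin.val h1
      simp only at h2
      exact Fin.ext (by omega)
  · intro u v huv hv x hx y hy
    have hu : u < K := huv.trans hv
    simp only [dif_pos hu] at hx
    simp only [dif_pos hv] at hy
    obtain ⟨j, -, rfl⟩ := Finset.mem_image.1 hx
    obtain ⟨j', -, rfl⟩ := Finset.mem_image.1 hy
    apply g.strictMono
    rw [Fin.lt_def]
    have h1 : (u + 1) * M ≤ v * M := Nat.mul_le_mul_right _ huv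
    have h2 : (u + 1) * M = u * M + M := by ring
    have h3 := j.2
    show u * M + j.1 < v * M + j'.1
    omega

/-- the number of pairs in `X × Y` with the property `P` -/
noncomputable def cnt (P : ℕ → ℕ → Prop) (X Y : Finset ℕ) : ℕ := by
  classical
  exact ((X ×ˢ Y).filter (fun z => P z.1 z.2)).card

theorem cnt_mono (P : ℕ → ℕ → Prop) {X X' Y Y' : Finset ℕ} (hX : X ⊆ X') (hY : Y ⊆ Y') :
    cnt P X Y ≤ cnt P X' Y' := by
  classical
  unfold cnt
  exact Finset.card_le_card (Finset.filter_subset_filter _ (Finset.product_subset_product hX hY))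

theorem cnt_le (P : ℕ → ℕ → Prop) (X Y : Finset ℕ) : cnt P X Y ≤ X.card * Y.card := by
  classical
  unfold cnt
  exact (Finset.card_filter_le _ _).trans (le_of_eq (Finset.card_product _ _))

theorem cnt_blocks (P : ℕ → ℕ → Prop) (X Y : Finset ℕ) (K : ℕ) (BX BY : ℕ → Finset ℕ)
    (hBX : ∀ u < K, BX u ⊆ X) (hBY : ∀ u < K, BY u ⊆ Y)
    (hX : ∀ u v, u < v → v < K → ∀ x ∈ BX u, ∀ y ∈ BX v, x < y)
    (hY : ∀ u v, u < v → v < K → ∀ x ∈ BY u, ∀ y ∈ BY v, x < y)
    (T : Finset (ℕ × ℕ)) (hT : ∀ q ∈ T, q.1 < K ∧ q.2 < K) :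
    ∑ q ∈ T, cnt P (BX q.1) (BY q.2) ≤ cnt P X Y := by
  classical
  unfold cnt
  rw [← Finset.card_biUnion]
  · apply Finset.card_le_card
    intro z hz
    obtain ⟨q, hq, hz⟩ := Finset.mem_biUnion.1 hz
    rw [Finset.mem_filter, Finset.mem_product] at hz ⊢
    exact ⟨⟨hBX _ (hT q hq).1 hz.1.1, hBY _ (hT q hq).2 hz.1.2⟩, hz.2⟩
  · intro q hq q' hq' hne
    rw [Function.onFun, Finset.disjoint_left]
    intro z hz hz'
    rw [Finset.mem_filter, Finset.mem_product] at hz hz'
    have key : ∀ (B : ℕ → Finset ℕ),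
        (∀ u v, u < v → v < K → ∀ x ∈ B u, ∀ y ∈ B v, x < y) →
        ∀ u v, u < K → v < K → ∀ x, x ∈ B u → x ∈ B v → u = v := by
      intro B hB u v hu hv x hxu hxv
      rcases lt_trichotomy u v with h | h | h
      · exact absurd (hB u v h hv x hxu x hxv) (lt_irrefl _)
      · exact h
      · exact absurd (hB v u h hu x hxv x hxu) (lt_irrefl _)
    apply hne
    have h1 := hT q hq
    have h2 := hT q' hq'
    exact Prod.ext (key BX hX _ _ h1.1 h2.1 _ hz.1.1 hz'.1.1)
      (key BY hY _ _ h1.2 h2.2 _ hz.1.2 hz'.1.2)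

theorem chain_mono {L : ℕ} {a : ℕ → ℕ} {e : ℕ → ℕ → ℕ}
    (hstep : ∀ t < L, e t (a t) < e (t + 1) (a t) ∧ ∀ i, i ≠ a t → e (t + 1) i = e t i)
    (i : ℕ) (s t : ℕ) (hst : s ≤ t) (htL : t ≤ L) : e s i ≤ e t i := by
  induction t with
  | zero =>
    obtain rfl : s = 0 := by omega
    exact le_refl _
  | succ t ih =>
    rcases Nat.lt_or_ge t s with h | h
    · obtain rfl : s = t + 1 := by omega
      exact le_refl _
    · refine (ih h (by omega)).trans ?_
      by_cases hi : i = a t
      · subst hi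
        exact (hstep t (by omega)).1.le
      · rw [(hstep t (by omega)).2 i hi]

theorem chain_const {L : ℕ} {a : ℕ → ℕ} {e : ℕ → ℕ → ℕ}
    (hstep : ∀ t < L, e t (a t) < e (t + 1) (a t) ∧ ∀ i, i ≠ a t → e (t + 1) i = e t i)
    (i : ℕ) (s t : ℕ) (hst : s ≤ t) (htL : t ≤ L) (hne : ∀ u, s ≤ u → u < t → a u ≠ i) :
    e t i = e s i := by
  induction t with
  | zero =>
    obtain rfl : s = 0 := by omega
    rfl
  | succ t ih =>
    rcases Nat.lt_or_ge t s with h | h
    · obtain rfl : s = t + 1 := by omega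
      rfl
    · rw [(hstep t (by omega)).2 i (fun hc => hne t h (by omega) hc.symm)]
      exact ih h (by omega) (fun u hu hut => hne u hu (by omega))

/-- slots with little noise between consecutive slots -/
theorem exists_slots (m E : ℕ) (X Y : Finset ℕ) (P : ℕ → ℕ → Prop) (K : ℕ)
    (hK : K = 2 * (m + 1)) (MX MY : ℕ) (hMX : 0 < MX) (hMY : 0 < MY)
    (hX : K * MX ≤ X.card) (hX2 : X.card ≤ 2 * K * MX)
    (hY : K * MY ≤ Y.card) (hY2 : Y.card ≤ 2 * K * MY)
    (hnoise : 16 * E * cnt P X Y ≤ X.card * Y.card) :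
    ∃ S : ℕ → Finset ℕ,
      (∀ i ≤ m, (i % 2 = 0 → S i ⊆ X ∧ (S i).card = MX) ∧
        (i % 2 = 1 → S i ⊆ Y ∧ (S i).card = MY)) ∧
      (∀ i j, i < j → j ≤ m → i % 2 = j % 2 → ∀ x ∈ S i, ∀ y ∈ S j, x < y) ∧
      ∀ i < m, (i % 2 = 0 → E * cnt P (S i) (S (i + 1)) ≤ MX * MY) ∧
        (i % 2 = 1 → E * cnt P (S (i + 1)) (S i) ≤ MX * MY) := by
  classical
  obtain ⟨BX, hBX, hBXo⟩ := exists_blocks X K MX hX
  obtain ⟨BY, hBY, hBYo⟩ := exists_blocks Y K MY hY
  have hK0 : 0 < K := by omega
  set U : Finset (ℕ × ℕ) := Finset.range K ×ˢ Finset.range K with hU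
  set good : Finset (ℕ × ℕ) := U.filter (fun q => E * cnt P (BX q.1) (BY q.2) ≤ MX * MY)
    with hgood
  set bad : Finset (ℕ × ℕ) := U.filter (fun q => ¬ E * cnt P (BX q.1) (BY q.2) ≤ MX * MY)
    with hbad
  have hUc : U.card = K * K := by
    rw [hU, Finset.card_product, Finset.card_range]
  have hgb : good.card + bad.card = K * K := by
    rw [← hUc, hgood, hbad]
    exact Finset.card_filter_add_card_filter_not _
  have hbadK : ∀ q ∈ bad, q.1 < K ∧ q.2 < K := by
    intro q hq
    have h1 := (Finset.mem_filter.1 hq).1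
    rw [hU, Finset.mem_product, Finset.mem_range, Finset.mem_range] at h1
    exact h1
  have hbadc : 4 * bad.card ≤ K * K := by
    have h1 : bad.card * (MX * MY) ≤ E * cnt P X Y := by
      calc bad.card * (MX * MY) = ∑ q ∈ bad, MX * MY := by
            rw [Finset.sum_const, smul_eq_mul]
        _ ≤ ∑ q ∈ bad, E * cnt P (BX q.1) (BY q.2) := by
            apply Finset.sum_le_sum
            intro q hq
            have := (Finset.mem_filter.1 hq).2
            omega
        _ = E * ∑ q ∈ bad, cnt P (BX q.1) (BY q.2) := by rw [Finset.mul_sum]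
        _ ≤ E * cnt P X Y := by
            apply Nat.mul_le_mul_left
            exact cnt_blocks P X Y K BX BY (fun u hu => (hBX u hu).1) (fun u hu => (hBY u hu).1)
              hBXo hBYo bad hbadK
    have h2 : X.card * Y.card ≤ (2 * K * MX) * (2 * K * MY) := Nat.mul_le_mul hX2 hY2
    have h3 : (16 * bad.card) * (MX * MY) ≤ (4 * (K * K)) * (MX * MY) := by
      calc (16 * bad.card) * (MX * MY) = 16 * (bad.card * (MX * MY)) := by ring
        _ ≤ 16 * (E * cnt P X Y) := Nat.mul_le_mul_left _ h1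
        _ = 16 * E * cnt P X Y := by ring
        _ ≤ X.card * Y.card := hnoise
        _ ≤ (2 * K * MX) * (2 * K * MY) := h2
        _ = (4 * (K * K)) * (MX * MY) := by ring
    have h4 := Nat.le_of_mul_le_mul_right h3 (Nat.mul_pos hMX hMY)
    omega
  -- states
  let st : ℕ × ℕ → ℕ → ℕ := fun q i => if i = 0 then q.1 else if i = 1 then q.2 else 0
  have hstinj : Function.Injective st := by
    intro q q' h
    have h0 := congrFun h 0
    have h1 := congrFun h 1
    simp only [st, if_true] at h0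
    simp only [st, one_ne_zero, if_false, if_true] at h1
    exact Prod.ext h0 h1
  set H : Finset (ℕ → ℕ) := good.image st with hH
  have hHc : H.card = good.card := Finset.card_image_of_injective _ hstinj
  have hHmem : ∀ f ∈ H, f 0 < K ∧ f 1 < K ∧ (∀ j, 2 ≤ j → f j = 0) ∧
      E * cnt P (BX (f 0)) (BY (f 1)) ≤ MX * MY := by
    intro f hf
    obtain ⟨q, hq, rfl⟩ := Finset.mem_image.1 hf
    have h1 := (Finset.mem_filter.1 hq).1
    rw [hU, Finset.mem_product, Finset.mem_range, Finset.mem_range] at h1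
    refine ⟨h1.1, h1.2, ?_, (Finset.mem_filter.1 hq).2⟩
    intro j hj
    show (if j = 0 then q.1 else if j = 1 then q.2 else 0) = 0
    rw [if_neg (by omega), if_neg (by omega)]
  have hβ : ∀ i ∈ {i : ℕ | i < 2}, ∀ B ⊆ H,
      (∀ f ∈ B, ∀ f' ∈ B, (∀ j, j ≠ i → f j = f' j) → f = f') → B.card ≤ K := by
    intro i hi B hBH hB
    have hi2 : i < 2 := hi
    have h1 := Finset.card_le_card_of_injOn (s := B) (t := Finset.range K)
      (fun f => f (1 - i))
      (by
        intro f hf
        have h2 := hHmem f (hBH hf)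
        rw [Finset.mem_coe, Finset.mem_range]
        interval_cases i
        · exact h2.2.1
        · exact h2.1)
      (by
        intro f hf f' hf' hff
        have h2 := hHmem f (hBH hf)
        have h3 := hHmem f' (hBH hf')
        apply hB f hf f' hf'
        intro j hj
        simp only at hff
        rcases Nat.lt_or_ge j 2 with hj2 | hj2
        · interval_cases i
          · obtain rfl : j = 1 := by omega
            exact hff
          · obtain rfl : j = 0 := by omega
            exact hff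
        · rw [h2.2.2.1 j hj2, h3.2.2.1 j hj2])
    rwa [Finset.card_range] at h1
  obtain ⟨B, hBH, hBc, hB⟩ := chain H K {i : ℕ | i < 2} hβ (m + 1) (fun t => t % 2)
    (fun t => Nat.mod_lt _ (by norm_num))
  obtain ⟨e₀, he₀, he₀B⟩ : ∃ e₀ ∈ H, e₀ ∉ B := by
    by_contra hcon
    push Not at hcon
    have h1 := Finset.card_le_card (show H ⊆ B from hcon)
    rw [hHc] at h1
    have h2 : 2 * ((m + 1) * K) = K * K := by
      rw [hK]
      ring
    have h3 : 0 < K * K := Nat.mul_pos hK0 hK0
    omega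
  obtain ⟨e, -, heH, hstep⟩ := hB e₀ he₀ he₀B
  refine ⟨fun i => if i % 2 = 0 then BX (e (i + 1) 0) else BY (e (i + 1) 1), ?_, ?_, ?_⟩
  · intro i hi
    have h1 := hHmem _ (heH (i + 1) (by omega))
    refine ⟨fun h => ?_, fun h => ?_⟩
    · simp only [h, if_true]
      exact hBX _ h1.1
    · simp only [h, one_ne_zero, if_false]
      exact hBY _ h1.2.1
  · intro i j hij hj hpar x hx y hy
    have hlt : e (i + 1) (j % 2) < e (j + 1) (j % 2) :=
      lt_of_le_of_lt (chain_mono hstep (j % 2) (i + 1) j hij (by omega)) (hstep j (by omega)).1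
    have h1 := hHmem _ (heH (j + 1) (by omega))
    rcases Nat.mod_two_eq_zero_or_one j with h0 | h0
    · rw [h0] at hlt
      simp only [h0] at hpar
      simp only [hpar, if_true] at hx
      simp only [h0, if_true] at hy
      exact hBXo _ _ hlt h1.1 x hx y hy
    · rw [h0] at hlt
      simp only [h0] at hpar
      simp only [hpar, one_ne_zero, if_false] at hx
      simp only [h0, one_ne_zero, if_false] at hy
      exact hBYo _ _ hlt h1.2.1 x hx y hy
  · intro i hi
    have h1 := hHmem _ (heH (i + 2) (by omega))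
    have hs := hstep (i + 1) (by omega)
    refine ⟨fun h => ?_, fun h => ?_⟩
    · have h2 : (i + 1) % 2 = 1 := by omega
      simp only [h, h2, if_true, one_ne_zero, if_false]
      have h3 : e (i + 2) 0 = e (i + 1) 0 := hs.2 0 (by rw [h2]; norm_num)
      rw [← h3]
      exact h1.2.2.2
    · have h2 : (i + 1) % 2 = 0 := by omega
      simp only [h, h2, if_true, one_ne_zero, if_false]
      have h3 : e (i + 2) 1 = e (i + 1) 1 := hs.2 1 (by rw [h2]; norm_num)
      rw [← h3]
      exact h1.2.2.2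

end Pool.Agent.OrdForest
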