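import Mathlib
import Pool.Agent.Lib.MP_5b01b8_co_FO.Blocks

/-!
# Colourings of `X × Y` contain chains of monochromatic walks
-/

set_option autoImplicit false

namespace Pool.Agent.OrdForest

open Finset

/-- `e t i` is the content of the slot `i` at the time `t`: slots of even number lie in `X`, slots
of odd number in `Y`, slots of the same parity are ordered like their numbers, consecutive
contents are related by `P`, at time `t` the content of the slot `a t` is increased. -/
def Realizes (n m : ℕ) (a : ℕ → ℕ) (P : ℕ → ℕ → Prop) (X Y : Finset ℕ) (e : ℕ → ℕ → ℕ) : Prop :=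
  (∀ t ≤ n, ∀ i ≤ m, (i % 2 = 0 → e t i ∈ X) ∧ (i % 2 = 1 → e t i ∈ Y)) ∧
  (∀ s ≤ n, ∀ t ≤ n, ∀ i j, i < j → j ≤ m → i % 2 = j % 2 → e s i < e t j) ∧
  (∀ t ≤ n, ∀ i < m, (i % 2 = 0 → P (e t i) (e t (i + 1))) ∧
    (i % 2 = 1 → P (e t (i + 1)) (e t i))) ∧
  ∀ t < n, e t (a t) < e (t + 1) (a t) ∧ ∀ i, i ≠ a t → e (t + 1) i = e t i

theorem Realizes.mono {n m : ℕ} {a : ℕ → ℕ} {P : ℕ → ℕ → Prop} {X Y X' Y' : Finset ℕ}
    {e : ℕ → ℕ → ℕ} (h : Realizes n m a P X Y e) (hX : X ⊆ X') (hY : Y ⊆ Y') :
    Realizes n m a P X' Y' e :=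
  ⟨fun t ht i hi => ⟨fun h0 => hX ((h.1 t ht i hi).1 h0), fun h0 => hY ((h.1 t ht i hi).2 h0)⟩,
    h.2.1, h.2.2.1, h.2.2.2⟩

theorem exists_enum (T : Finset ℕ) (d : ℕ) (hd : d ≤ T.card) :
    ∃ f : ℕ → ℕ, (∀ k < d, f k ∈ T) ∧ ∀ k < d, ∀ k' < d, f k = f k' → k = k' := by
  classical
  let g : Fin T.card ↪o ℕ := T.orderEmbOfFin rfl
  refine ⟨fun k => if h : k < T.card then g ⟨k, h⟩ else 0, ?_, ?_⟩
  · intro k hk
    have h1 : k < T.card := by omega
    simp only [dif_pos h1]
    exact T.orderEmbOfFin_mem rfl _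
  · intro k hk k' hk' h
    have h1 : k < T.card := by omega
    have h2 : k' < T.card := by omega
    simp only [dif_pos h1, dif_pos h2] at h
    exact Fin.mk.inj_iff.1 (g.injective h)

theorem cnt_swap (P : ℕ → ℕ → Prop) (X Y : Finset ℕ) :
    cnt P X Y = cnt (fun y x => P x y) Y X := by
  classical
  unfold cnt
  apply Finset.card_bij (fun z _ => (z.2, z.1))
  · intro z hz
    rw [Finset.mem_filter, Finset.mem_product] at hz ⊢
    exact ⟨⟨hz.1.2, hz.1.1⟩, hz.2⟩
  · intro z _ z' _ h
    exact Prod.ext (congrArg Prod.snd h) (congrArg Prod.fst h)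
  · intro z hz
    rw [Finset.mem_filter, Finset.mem_product] at hz
    refine ⟨(z.2, z.1), ?_, rfl⟩
    rw [Finset.mem_filter, Finset.mem_product]
    exact ⟨⟨hz.1.2, hz.1.1⟩, hz.2⟩

theorem cnt_le_add (P Q R : ℕ → ℕ → Prop) (X Y : Finset ℕ)
    (h : ∀ x y, R x y → P x y ∨ Q x y) : cnt R X Y ≤ cnt P X Y + cnt Q X Y := by
  classical
  unfold cnt
  refine (Finset.card_le_card ?_).trans (Finset.card_union_le _ _)
  intro z hz
  rw [Finset.mem_filter] at hz
  rw [Finset.mem_union, Finset.mem_filter, Finset.mem_filter]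
  rcases h _ _ hz.2 with h | h
  · exact Or.inl ⟨hz.1, h⟩
  · exact Or.inr ⟨hz.1, h⟩

theorem cnt_all (P : ℕ → ℕ → Prop) (X Y : Finset ℕ) (h : ∀ x y, P x y) :
    cnt P X Y = X.card * Y.card := by
  classical
  apply le_antisymm (cnt_le _ _ _)
  unfold cnt
  rw [← Finset.card_product]
  exact Finset.card_le_card (fun z hz => Finset.mem_filter.2 ⟨hz, h _ _⟩)

theorem cnt_congr_le (P Q : ℕ → ℕ → Prop) (X Y : Finset ℕ) (h : ∀ x y, P x y → Q x y) :
    cnt P X Y ≤ cnt Q X Y := by
  classical
  unfold cnt
  exact Finset.card_le_card (fun z hz => Finset.mem_filter.2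
    ⟨(Finset.mem_filter.1 hz).1, h _ _ (Finset.mem_filter.1 hz).2⟩)

/-- few good vertices give few related pairs -/
theorem cnt_le_of_good (P : ℕ → ℕ → Prop) (S G T : Finset ℕ) (d : ℕ)
    (h : ∀ x ∈ S, x ∉ G → ∀ T' ⊆ T, (∀ y ∈ T', P x y) → T'.card ≤ d) :
    cnt P S T ≤ G.card * T.card + S.card * d := by
  classical
  unfold cnt
  have h1 : (S ×ˢ T).filter (fun z => P z.1 z.2) ⊆
      (G ×ˢ T) ∪ ((S \ G) ×ˢ T).filter (fun z => P z.1 z.2) := by
    intro z hz
    rw [Finset.mem_filter, Finset.mem_product] at hz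
    rw [Finset.mem_union, Finset.mem_product, Finset.mem_filter, Finset.mem_product,
      Finset.mem_sdiff]
    by_cases hG : z.1 ∈ G
    · exact Or.inl ⟨hG, hz.1.2⟩
    · exact Or.inr ⟨⟨⟨hz.1.1, hG⟩, hz.1.2⟩, hz.2⟩
  refine (Finset.card_le_card h1).trans ((Finset.card_union_le _ _).trans ?_)
  apply Nat.add_le_add
  · exact le_of_eq (Finset.card_product _ _)
  · have h2 : (((S \ G) ×ˢ T).filter (fun z => P z.1 z.2)).card =
        ∑ x ∈ S \ G, (T.filter (fun y => P x y)).card := by
      rw [Finset.card_filter, Finset.sum_product]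
      apply Finset.sum_congr rfl
      intro x _
      rw [Finset.card_filter]
    rw [h2]
    calc ∑ x ∈ S \ G, (T.filter (fun y => P x y)).card ≤ ∑ x ∈ S \ G, d := by
          apply Finset.sum_le_sum
          intro x hx
          rw [Finset.mem_sdiff] at hx
          exact h x hx.1 hx.2 _ (Finset.filter_subset _ _)
            (fun y hy => (Finset.mem_filter.1 hy).2)
      _ = (S \ G).card * d := by rw [Finset.sum_const, smul_eq_mul]
      _ ≤ S.card * d := Nat.mul_le_mul_right _ (Finset.card_le_card Finset.sdiff_subset)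

/-- the sets of vertices from which a walk through the slots exists in abundance -/
noncomputable def Rr (S : ℕ → Finset ℕ) (d : ℕ → ℕ) (Q : ℕ → ℕ → ℕ → Prop) (m : ℕ) :
    ℕ → Finset ℕ
  | 0 => S m
  | j + 1 => by
    classical
    exact (S (m - (j + 1))).filter (fun x =>
      d (m - (j + 1)) ≤ ((Rr S d Q m j).filter (fun y => Q (m - (j + 1)) x y)).card)

theorem walks_or_sparse (m : ℕ) (S : ℕ → Finset ℕ) (Q : ℕ → ℕ → ℕ → Prop)
    (q : ℕ) (hq : 0 < q) (n : ℕ) (hn : 0 < n) (a : ℕ → ℕ) (ha : ∀ t, 1 ≤ a t ∧ a t < m)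
    (hbig : ∀ i ≤ m, q * q * (2 * (q * q) * n + 1) ≤ (S i).card) :
    (∃ e : ℕ → ℕ → ℕ, (∀ t ≤ n, ∀ i ≤ m, e t i ∈ S i) ∧
      (∀ t ≤ n, ∀ i < m, Q i (e t i) (e t (i + 1))) ∧
      ∀ t < n, e t (a t) < e (t + 1) (a t) ∧ ∀ i, i ≠ a t → e (t + 1) i = e t i) ∨
    ∃ i < m, ∃ T ⊆ S (i + 1), (S (i + 1)).card ≤ q * T.card ∧
      q * cnt (Q i) (S i) T ≤ 2 * ((S i).card * T.card) := by
  classical
  set d : ℕ → ℕ := fun i => (S (i + 1)).card / (q * q) with hd
  set R : ℕ → Finset ℕ := fun i => Rr S d Q m (m - i) with hR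
  have hqq : 0 < q * q := Nat.mul_pos hq hq
  have hRm : R m = S m := by
    show Rr S d Q m (m - m) = S m
    rw [Nat.sub_self]
    rfl
  have hRstep : ∀ i < m, R i = (S i).filter (fun x =>
      d i ≤ ((R (i + 1)).filter (fun y => Q i x y)).card) := by
    intro i hi
    show Rr S d Q m (m - i) = _
    obtain ⟨j, hj⟩ : ∃ j, m - i = j + 1 := ⟨m - i - 1, by omega⟩
    have h1 : m - (j + 1) = i := by omega
    have h2 : m - (i + 1) = j := by omega
    rw [hj]
    show (S (m - (j + 1))).filter _ = (S i).filter (fun x =>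
      d i ≤ ((Rr S d Q m (m - (i + 1))).filter (fun y => Q i x y)).card)
    rw [h1, h2]
  have hRS : ∀ i ≤ m, R i ⊆ S i := by
    intro i hi
    rcases Nat.lt_or_ge i m with h | h
    · rw [hRstep i h]
      exact Finset.filter_subset _ _
    · obtain rfl : i = m := by omega
      rw [hRm]
  by_cases hall : ∀ i < m, (S (i + 1)).card ≤ q * (R (i + 1)).card →
      (S i).card ≤ q * (R i).card
  · -- success
    left
    have h0 : ∀ j ≤ m, (S (m - j)).card ≤ q * (R (m - j)).card := by
      intro j
      induction j with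
      | zero =>
        intro _
        rw [Nat.sub_zero, hRm]
        exact Nat.le_mul_of_pos_left _ hq
      | succ j ih =>
        intro hj
        have h1 : m - j = m - (j + 1) + 1 := by omega
        have h2 := ih (by omega)
        rw [h1] at h2
        exact hall _ (by omega) h2
    have hpos : ∀ i ≤ m, 0 < (S i).card := by
      intro i hi
      refine lt_of_lt_of_le ?_ (hbig i hi)
      positivity
    have hRne : ∀ i ≤ m, 0 < (R i).card := by
      intro i hi
      have h1 := h0 (m - i) (by omega)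
      have h2 : m - (m - i) = i := by omega
      rw [h2] at h1
      have h3 := hpos i hi
      by_contra hcon
      have h4 : (R i).card = 0 := by omega
      rw [h4] at h1
      omega
    have henum : ∀ i x, ∃ f : ℕ → ℕ, i < m → x ∈ R i →
        (∀ k < d i, f k ∈ (R (i + 1)).filter (fun y => Q i x y)) ∧
        ∀ k < d i, ∀ k' < d i, f k = f k' → k = k' := by
      intro i x
      by_cases h : i < m ∧ x ∈ R i
      · have h1 := h.2
        rw [hRstep i h.1, Finset.mem_filter] at h1
        obtain ⟨f, hf⟩ := exists_enum _ _ h1.2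
        exact ⟨f, fun _ _ => hf⟩
      · exact ⟨fun _ => 0, fun h1 h2 => absurd ⟨h1, h2⟩ h⟩
    choose nxt hnxt using henum
    have hdlow : ∀ i < m, 2 * (q * q) * n + 1 ≤ d i := by
      intro i hi
      show _ ≤ (S (i + 1)).card / (q * q)
      rw [Nat.le_div_iff_mul_le hqq]
      calc (2 * (q * q) * n + 1) * (q * q) = q * q * (2 * (q * q) * n + 1) := by ring
        _ ≤ _ := hbig _ (by omega)
    have hdlow2 : ∀ i < m, (S (i + 1)).card ≤ 2 * (q * q) * d i := by
      intro i hi
      have h1 := Nat.lt_mul_div_succ (S (i + 1)).card hqq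
      have h2 := hdlow i hi
      have h3 : q * q * ((S (i + 1)).card / (q * q) + 1) =
          q * q * d i + q * q := by
        rw [Nat.mul_add, Nat.mul_one]
      rw [h3] at h1
      have h4 : q * q ≤ q * q * d i := Nat.le_mul_of_pos_right _ (by omega)
      have h5 : 2 * (q * q) * d i = q * q * d i + q * q * d i := by ring
      omega
    obtain ⟨e, he1, he2, he3⟩ := walks_chain (m := m) (R := R) (d := d) (nxt := nxt)
      (fun i hi x hx k hk => (Finset.mem_filter.1 ((hnxt i x hi hx).1 k hk)).1)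
      (fun i hi x hx k hk k' hk' => (hnxt i x hi hx).2 k hk k' hk')
      (Finset.card_pos.1 (hRne 0 (Nat.zero_le _)))
      (fun i hi => by have := hdlow i hi; omega) n hn
      (by
        intro i hi1 him
        have h1 : (R (i + 1)).card ≤ (S (i + 1)).card :=
          Finset.card_le_card (hRS _ (by omega))
        have h2 := hdlow (i - 1) (by omega)
        have h3 := hdlow2 i him
        have h4 : 0 < d i := by have := hdlow i him; omega
        calc n * (R (i + 1)).card ≤ n * (2 * (q * q) * d i) :=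
              Nat.mul_le_mul_left _ (h1.trans h3)
          _ < n * (2 * (q * q) * d i) + d i := by omega
          _ = (2 * (q * q) * n + 1) * d i := by ring
          _ ≤ d (i - 1) * d i := Nat.mul_le_mul_right _ h2) a ha
    refine ⟨e, fun t ht i hi => hRS i hi (he1 t ht i hi), ?_, he3⟩
    intro t ht i hi
    obtain ⟨k, hk, hke⟩ := he2 t ht i hi
    rw [hke]
    exact (Finset.mem_filter.1 ((hnxt i _ hi (he1 t ht i hi.le)).1 k hk)).2
  · right
    push Not at hall
    obtain ⟨i, hi, h1, h2⟩ := hall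
    refine ⟨i, hi, R (i + 1), hRS _ hi, h1, ?_⟩
    have h3 : cnt (Q i) (S i) (R (i + 1)) ≤
        (R i).card * (R (i + 1)).card + (S i).card * d i := by
      apply cnt_le_of_good
      intro x hx hxR T' hT' hQ
      rw [hRstep i hi, Finset.mem_filter] at hxR
      push Not at hxR
      have h4 := hxR hx
      have h5 : T' ⊆ (R (i + 1)).filter (fun y => Q i x y) := fun y hy =>
        Finset.mem_filter.2 ⟨hT' hy, hQ y hy⟩
      exact (Finset.card_le_card h5).trans h4.le
    have h6 : q * (q * d i) ≤ q * (R (i + 1)).card := by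
      calc q * (q * d i) = (q * q) * ((S (i + 1)).card / (q * q)) := by
            rw [hd]; ring
        _ ≤ (S (i + 1)).card := Nat.mul_div_le _ _
        _ ≤ q * (R (i + 1)).card := h1
    have h7 : q * d i ≤ (R (i + 1)).card := Nat.le_of_mul_le_mul_left h6 hq
    calc q * cnt (Q i) (S i) (R (i + 1))
        ≤ q * ((R i).card * (R (i + 1)).card + (S i).card * d i) := Nat.mul_le_mul_left _ h3
      _ = (q * (R i).card) * (R (i + 1)).card + (S i).card * (q * d i) := by ring
      _ ≤ (S i).card * (R (i + 1)).card + (S i).card * (R (i + 1)).card :=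
          Nat.add_le_add (Nat.mul_le_mul_right _ h2.le) (Nat.mul_le_mul_left _ h7)
      _ = 2 * ((S i).card * (R (i + 1)).card) := by ring

theorem host (r : ℕ) : ∃ E C : ℕ, 0 < E ∧ 0 < C ∧
    ∀ (κ : Type) (col : ℕ → ℕ → κ) (U : Finset κ), U.card = r → ∀ n m : ℕ, 0 < n →
      ∀ a : ℕ → ℕ, (∀ t, 1 ≤ a t ∧ a t < m) → ∀ X Y : Finset ℕ,
        C * (n + 1) * (m + 1) ^ r ≤ X.card → C * (n + 1) * (m + 1) ^ r ≤ Y.card →
        E * cnt (fun x y => col x y ∉ U) X Y ≤ X.card * Y.card →
        ∃ b ∈ U, ∃ e : ℕ → ℕ → ℕ, Realizes n m a (fun x y => col x y = b) X Y e := by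
  classical
  induction r with
  | zero =>
    refine ⟨2, 1, by norm_num, by norm_num, ?_⟩
    intro κ col U hU n m hn a ha X Y hX hY hnoise
    exfalso
    rw [Finset.card_eq_zero] at hU
    subst hU
    have h1 : cnt (fun x y => col x y ∉ (∅ : Finset κ)) X Y = X.card * Y.card :=
      cnt_all _ _ _ (fun x y => Finset.notMem_empty _)
    rw [h1] at hnoise
    simp only [pow_zero, mul_one, one_mul] at hX hY
    have h2 : 0 < X.card * Y.card := Nat.mul_pos (by omega) (by omega)
    omega
  | succ r ih =>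
    obtain ⟨E, C, hE, hC, hih⟩ := ih
    set q : ℕ := 4 * E with hqdef
    have hq : 0 < q := by omega
    set E' : ℕ := 2 * q * E with hE'
    set W : ℕ := q * q * (2 * (q * q) + 1) + q * C with hW
    have hWpos : 0 < W := by positivity
    refine ⟨16 * E', 2 * W, by positivity, by positivity, ?_⟩
    intro κ col U hU n m hn a ha X Y hX hY hnoise
    set K : ℕ := 2 * (m + 1) with hK
    have hK0 : 0 < K := by omega
    set MX : ℕ := X.card / K with hMX
    set MY : ℕ := Y.card / K with hMY
    set Z : ℕ := W * (n + 1) * (m + 1) ^ r with hZ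
    have hZpos : 0 < Z := by positivity
    have hsize : ∀ c : ℕ, 2 * W * (n + 1) * (m + 1) ^ (r + 1) ≤ c → Z ≤ c / K := by
      intro c hc
      rw [Nat.le_div_iff_mul_le hK0]
      refine le_trans (le_of_eq ?_) hc
      rw [hZ, hK, pow_succ]
      ring
    have hZX : Z ≤ MX := hsize _ hX
    have hZY : Z ≤ MY := hsize _ hY
    have hbound : ∀ c M : ℕ, M = c / K → 0 < M → K * M ≤ c ∧ c ≤ 2 * K * M := by
      intro c M hM hM0
      have h1 := Nat.mul_div_le c K
      have h2 := Nat.lt_mul_div_succ c hK0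
      rw [← hM] at h1 h2
      refine ⟨h1, ?_⟩
      have h3 : K * (M + 1) = K * M + K := by ring
      have h4 : K ≤ K * M := Nat.le_mul_of_pos_right _ hM0
      have h5 : 2 * K * M = K * M + K * M := by ring
      omega
    obtain ⟨hX1, hX2⟩ := hbound _ _ hMX (by omega)
    obtain ⟨hY1, hY2⟩ := hbound _ _ hMY (by omega)
    obtain ⟨S, hS, hSo, hSn⟩ := exists_slots m E' X Y (fun x y => col x y ∉ U) K hK MX MY
      (by omega) (by omega) hX1 hX2 hY1 hY2 hnoise
    have hScard : ∀ i ≤ m, Z ≤ (S i).card := by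
      intro i hi
      rcases Nat.mod_two_eq_zero_or_one i with h | h
      · rw [((hS i hi).1 h).2]; exact hZX
      · rw [((hS i hi).2 h).2]; exact hZY
    have hZ1 : q * q * (2 * (q * q) * n + 1) ≤ Z := by
      have h1 : 1 ≤ (m + 1) ^ r := Nat.one_le_pow _ _ (by omega)
      calc q * q * (2 * (q * q) * n + 1) ≤ q * q * (2 * (q * q) + 1) * (n + 1) := by
            have h2 : 2 * (q * q) * n + 1 ≤ (2 * (q * q) + 1) * (n + 1) := by
              have : (2 * (q * q) + 1) * (n + 1) = 2 * (q * q) * n + 2 * (q * q) + n + 1 := by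
                ring
              omega
            calc q * q * (2 * (q * q) * n + 1) ≤ q * q * ((2 * (q * q) + 1) * (n + 1)) :=
                  Nat.mul_le_mul_left _ h2
              _ = _ := by ring
        _ ≤ W * (n + 1) := Nat.mul_le_mul_right _ (by omega)
        _ ≤ W * (n + 1) * (m + 1) ^ r := Nat.le_mul_of_pos_right _ (by omega)
    have hZ2 : q * (C * (n + 1) * (m + 1) ^ r) ≤ Z := by
      calc q * (C * (n + 1) * (m + 1) ^ r) = q * C * ((n + 1) * (m + 1) ^ r) := by ring
        _ ≤ W * ((n + 1) * (m + 1) ^ r) := Nat.mul_le_mul_right _ (by omega)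
        _ = Z := by rw [hZ]; ring
    have hZ3 : C * (n + 1) * (m + 1) ^ r ≤ Z :=
      (Nat.le_mul_of_pos_left _ hq).trans hZ2
    obtain ⟨b, hbU⟩ : U.Nonempty := by
      rw [← Finset.card_pos]
      omega
    set cl : ℕ → ℕ → ℕ → Prop := fun i x y =>
      if i % 2 = 0 then col x y = b else col y x = b with hcl
    rcases walks_or_sparse m S cl q hq n hn a ha (fun i hi => hZ1.trans (hScard i hi)) with h | h
    · -- walks in the colour `b`
      obtain ⟨e, he1, he2, he3⟩ := h
      refine ⟨b, hbU, e, ?_, ?_, ?_, he3⟩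
      · intro t ht i hi
        exact ⟨fun h0 => ((hS i hi).1 h0).1 (he1 t ht i hi),
          fun h0 => ((hS i hi).2 h0).1 (he1 t ht i hi)⟩
      · intro s hs t ht i j hij hj hpar
        exact hSo i j hij hj hpar _ (he1 s hs i (by omega)) _ (he1 t ht j hj)
      · intro t ht i hi
        have h1 := he2 t ht i hi
        refine ⟨fun h0 => ?_, fun h0 => ?_⟩
        · simp only [hcl, h0, if_true] at h1
          exact h1
        · simp only [hcl, h0, one_ne_zero, if_false] at h1
          exact h1
    · -- the colour `b` is sparse between `S i` and `T`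
      obtain ⟨i, hi, T, hTS, hTc, hcnt⟩ := h
      have hU' : (U.erase b).card = r := by
        rw [Finset.card_erase_of_mem hbU]
        omega
      have hTbig : C * (n + 1) * (m + 1) ^ r ≤ T.card := by
        have h1 : q * (C * (n + 1) * (m + 1) ^ r) ≤ q * T.card :=
          hZ2.trans ((hScard (i + 1) (by omega)).trans hTc)
        exact Nat.le_of_mul_le_mul_left h1 hq
      have hSbig : C * (n + 1) * (m + 1) ^ r ≤ (S i).card :=
        hZ3.trans (hScard i (by omega))
      have hnew : ∀ x y, col x y ∉ U.erase b → col x y ∉ U ∨ col x y = b := by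
        intro x y hxy
        by_cases h1 : col x y = b
        · exact Or.inr h1
        · left
          intro h2
          exact hxy (Finset.mem_erase.2 ⟨h1, h2⟩)
      have hfin : ∀ c1 c2 : ℕ, E' * c1 ≤ (S i).card * (S (i + 1)).card →
          q * c2 ≤ 2 * ((S i).card * T.card) → E * (c1 + c2) ≤ (S i).card * T.card := by
        intro c1 c2 h1 h2
        have h3 : (S i).card * (S (i + 1)).card ≤ (S i).card * (q * T.card) :=
          Nat.mul_le_mul_left _ hTc
        have h4 : q * (2 * E * c1) ≤ q * ((S i).card * T.card) := by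
          calc q * (2 * E * c1) = E' * c1 := by rw [hE']; ring
            _ ≤ (S i).card * (q * T.card) := h1.trans h3
            _ = q * ((S i).card * T.card) := by ring
        have h5 : 2 * E * c1 ≤ (S i).card * T.card := Nat.le_of_mul_le_mul_left h4 hq
        have h6 : 2 * (2 * E * c2) ≤ 2 * ((S i).card * T.card) := by
          calc 2 * (2 * E * c2) = q * c2 := by rw [hqdef]; ring
            _ ≤ _ := h2
        have h7 : E * (c1 + c2) = E * c1 + E * c2 := by ring
        have h8 : 2 * E * c1 = 2 * (E * c1) := by ring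
        have h9 : 2 * E * c2 = 2 * (E * c2) := by ring
        rw [h7]
        omega
      rcases Nat.mod_two_eq_zero_or_one i with h0 | h0
      · have h1 : (i + 1) % 2 = 1 := by omega
        have hSX := ((hS i (by omega)).1 h0)
        have hSY := ((hS (i + 1) (by omega)).2 h1)
        have hn1 := (hSn i hi).1 h0
        rw [← hSX.2, ← hSY.2] at hn1
        have hcl' : cl i = fun x y => col x y = b := by
          funext x y
          simp only [hcl, h0, if_true]
        rw [hcl'] at hcnt
        have hnoise' : E * cnt (fun x y => col x y ∉ U.erase b) (S i) T ≤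
            (S i).card * T.card := by
          refine le_trans (Nat.mul_le_mul_left _ ?_) (hfin _ _ hn1 hcnt)
          refine (cnt_le_add (fun x y => col x y ∉ U) (fun x y => col x y = b) _ _ _
            hnew).trans ?_
          exact Nat.add_le_add_right (cnt_mono _ (Finset.Subset.refl _) hTS) _
        obtain ⟨b', hb', e, he⟩ := hih κ col (U.erase b) hU' n m hn a ha (S i) T hSbig hTbig
          hnoise'
        exact ⟨b', (Finset.mem_erase.1 hb').2, e, he.mono hSX.1 (hTS.trans hSY.1)⟩
      · have h1 : (i + 1) % 2 = 0 := by omega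
        have hSY := ((hS i (by omega)).2 h0)
        have hSX := ((hS (i + 1) (by omega)).1 h1)
        have hn1 := (hSn i hi).2 h0
        rw [← hSX.2, ← hSY.2, Nat.mul_comm (S (i + 1)).card] at hn1
        have hcl' : cl i = fun x y => col y x = b := by
          funext x y
          simp only [hcl, h0, one_ne_zero, if_false]
        rw [hcl', cnt_swap] at hcnt
        have hnoise' : E * cnt (fun x y => col x y ∉ U.erase b) T (S i) ≤
            T.card * (S i).card := by
          rw [Nat.mul_comm T.card]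
          refine le_trans (Nat.mul_le_mul_left _ ?_) (hfin _ _ hn1 hcnt)
          refine (cnt_le_add (fun x y => col x y ∉ U) (fun x y => col x y = b) _ _ _
            hnew).trans ?_
          exact Nat.add_le_add_right (cnt_mono _ hTS (Finset.Subset.refl _)) _
        obtain ⟨b', hb', e, he⟩ := hih κ col (U.erase b) hU' n m hn a ha T (S i) hTbig hSbig
          hnoise'
        exact ⟨b', (Finset.mem_erase.1 hb').2, e, he.mono (hTS.trans hSX.1) hSY.1⟩

end Pool.Agent.OrdForest
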