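import Mathlib

/-!
# The layout of a rooted forest in `2 log n + 2` slots

`par v` is the parent of `v` (or `none` if `v` is a root), `rk` increases strictly from the parent
to the child.  We enumerate the vertices (vertex `π t` at time `t`) and give them slots `p t` such
that the parent `π s` of `π t` comes earlier, lies in a neighbouring slot and no vertex strictly
between them in time is put into the slot of the parent.

Proof of `exists_layout_of_parent` (depth first search, heaviest child last).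

1. `anc v u` := `Relation.ReflTransGen (fun v u => par v = some u) v u`, `D u` := the finset of the
   `v` with `anc v u` (so `u ∈ D u`), `sz u` := `(D u).card ≥ 1`.  If `anc v u` then
   `rk u ≤ rk v`, with equality only for `v = u`.  If `anc v u` and `anc v w` then `anc u w` or
   `anc w u` (unique parents).  If `par c = some u` then `D c ⊆ D u` and `u ∉ D c`.  Two different
   vertices with the same parent (or two different roots) have disjoint `D` (otherwise `anc c h`
   say, `c ≠ h`, hence `anc u h`, `rk h ≤ rk u < rk h`).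
2. Order siblings by `c ≺ v` iff `toLex (sz c, c) < toLex (sz v, v)`.  A vertex `v` is heavy iff
   `c ≺ v` for all `c ≠ v` with `par c = par v`.  If `v` is not heavy and `par v = some u`, there
   is a sibling `h ≠ v` with `sz v ≤ sz h`, so `2 * sz v ≤ sz v + sz h ≤ sz u`.
3. `pre v` := (if `par v = none` then `0` else `pre u + 1` where `par v = some u`)
   `+ ∑ sz c` over the siblings `c ≺ v`  (well founded recursion on `rk`, for instance with
   `WellFounded.fix`).  Then for `w ∈ D v`: `pre v ≤ pre w` and `pre w + sz w ≤ pre v + sz v`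
   (induction along the chain from `w` to `v`; the sum of `1` and of the `sz` of all children of
   `u` is `≤ sz u`, by disjointness), and `pre v + sz v ≤ n` for all `v`.  `pre` is injective: for
   `v ≠ w` either one is an ancestor of the other (then `pre` differs because
   `pre (child) ≥ pre (parent) + 1`) or there are different siblings `c, c'` (or different roots)
   with `v ∈ D c`, `w ∈ D c'`, `c ≺ c'` say, and then
   `pre v < pre c + sz c ≤ pre c' ≤ pre w`.  So `pre` is a permutation of `0, ..., n - 1`; take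
   `π := pre⁻¹`, `t = pre (π t)`.
4. Slots: `(base v, slot v)`: for a root `(1, 1)`; for `par v = some u` and `v` not heavy
   `(slot u + 1, slot u + 1)`; for `par v = some u` and `v` heavy
   `(base u, 2 * base u + 1 - slot u)`.  Invariants: `1 ≤ base v`,
   `slot v = base v ∨ slot v = base v + 1`, and there is `l` with `base v ≤ 1 + 2 * l` and
   `2 ^ l * sz v ≤ n` (light child: `l + 1`, using 2.).  Hence `2 ^ l ≤ n`, `l ≤ Nat.log 2 n` and
   `slot v ≤ 2 * Nat.log 2 n + 2`.  In every case `slot v` and `slot u` differ by exactly one.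
   If `w ∈ D c` then `base c ≤ base w ≤ slot w`.  `p t := slot (π t)` for `t < n`.
5. Let `par v = some u` and `pre u < x < pre v`.  Then `x = pre w` with `w ∈ D u`: the
   `sz u` vertices of `D u` have their (different) values of `pre` in
   `[pre u, pre u + sz u)`, so they fill this interval, and `x` is in it.  As `w ≠ u`, `w ∈ D c`
   for a child `c` of `u`; `c = v` and `v ≺ c` are impossible (then `pre w ≥ pre v`), so `c ≺ v`,
   in particular `c` is not heavy, `base c = slot u + 1` and `slot w ≥ slot u + 1`.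
-/

set_option autoImplicit false

namespace Pool.Agent.OrdForest

namespace LayoutAux

variable {n : ℕ} (par : Fin n → Option (Fin n))

open Classical in
/-- the descendants of `u` -/
noncomputable def D (u : Fin n) : Finset (Fin n) :=
  Finset.univ.filter fun v => Relation.ReflTransGen (fun v u => par v = some u) v u

theorem mem_D {v u : Fin n} :
    v ∈ D par u ↔ Relation.ReflTransGen (fun v u => par v = some u) v u := by
  simp [D]

theorem self_mem (u : Fin n) : u ∈ D par u := (mem_D par).2 Relation.ReflTransGen.refl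

theorem D_par {v u : Fin n} (h : v ∈ D par u) (hne : v ≠ u) :
    ∃ w ∈ D par u, par v = some w := by
  rw [mem_D] at h
  rcases Relation.ReflTransGen.cases_head h with h | ⟨w, h1, h2⟩
  · exact absurd h hne
  · exact ⟨w, (mem_D par).2 h2, h1⟩

theorem D_child {v w u : Fin n} (h : v ∈ D par u) (hw : par w = some v) : w ∈ D par u :=
  (mem_D par).2 (Relation.ReflTransGen.head hw ((mem_D par).1 h))

/-- `S` is closed under children -/
def Cl (S : Finset (Fin n)) : Prop := ∀ v ∈ S, ∀ w, par w = some v → w ∈ S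

theorem cl_D (u : Fin n) : Cl par (D par u) := fun _ hv _ hw => D_child par hv hw

theorem D_sub {S : Finset (Fin n)} (hS : Cl par S) {u : Fin n} (hu : u ∈ S) : D par u ⊆ S := by
  intro v hv
  rw [mem_D] at hv
  induction hv using Relation.ReflTransGen.head_induction_on with
  | refl => exact hu
  | head h1 _ ih => exact hS _ ih _ h1

theorem rk_le {rk : Fin n → ℕ} (hrk : ∀ u v, par v = some u → rk u < rk v) {v u : Fin n}
    (h : v ∈ D par u) : rk u ≤ rk v := by
  rw [mem_D] at h
  induction h using Relation.ReflTransGen.head_induction_on with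
  | refl => exact le_rfl
  | head h1 _ ih => exact ih.trans (hrk _ _ h1).le

/-- `r` has no parent in `S` -/
def Rt (S : Finset (Fin n)) (r : Fin n) : Prop := ∀ u ∈ S, par r ≠ some u

theorem exists_rt {rk : Fin n → ℕ} (hrk : ∀ u v, par v = some u → rk u < rk v)
    {S : Finset (Fin n)} (hS : S.Nonempty) : ∃ r ∈ S, Rt par S r := by
  obtain ⟨r, hr, hmin⟩ := S.exists_min_image rk hS
  exact ⟨r, hr, fun u hu h => absurd (hrk _ _ h) (not_lt.2 (hmin u hu))⟩

/-- removing the subtree of a root -/
theorem cl_sdiff {S : Finset (Fin n)} (hS : Cl par S) {r : Fin n} (hr : Rt par S r) :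
    Cl par (S \ D par r) := by
  intro x hx y hy
  rw [Finset.mem_sdiff] at hx ⊢
  refine ⟨hS x hx.1 y hy, fun h => ?_⟩
  by_cases hyr : y = r
  · subst hyr
    exact hr x hx.1 hy
  · obtain ⟨w, hw, hw'⟩ := D_par par h hyr
    rw [hy] at hw'
    have e : x = w := Option.some.inj hw'
    exact hx.2 (e ▸ hw)

theorem rt_sdiff {S : Finset (Fin n)} {r x : Fin n} (hx : x ∈ S \ D par r)
    (hr : Rt par (S \ D par r) x) : Rt par S x := by
  intro u hu h
  rw [Finset.mem_sdiff] at hx
  by_cases hur : u ∈ D par r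
  · exact hx.2 (D_child par hur h)
  · exact hr u (Finset.mem_sdiff.2 ⟨hu, hur⟩) h

/-- the layout conditions on `S` -/
def Lay (S : Finset (Fin n)) (pos σ : Fin n → ℕ) : Prop :=
  (∀ v ∈ S, ∀ w ∈ S, pos v = pos w → v = w) ∧ (∀ v ∈ S, pos v < S.card) ∧
    ∀ u ∈ S, ∀ v ∈ S, par v = some u → pos u < pos v ∧ (σ u + 1 = σ v ∨ σ v + 1 = σ u) ∧
      ∀ w ∈ S, pos u < pos w → pos w < pos v → σ w ≠ σ u

theorem join {S₁ S₂ : Finset (Fin n)} {pos₁ pos₂ σ₁ σ₂ : Fin n → ℕ} (hd : Disjoint S₁ S₂)
    (h₁ : Lay par S₁ pos₁ σ₁) (h₂ : Lay par S₂ pos₂ σ₂)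
    (hno : ∀ u ∈ S₂, ∀ v ∈ S₁, par v ≠ some u)
    (hx : ∀ u ∈ S₁, ∀ v ∈ S₂, par v = some u → (σ₁ u + 1 = σ₂ v ∨ σ₂ v + 1 = σ₁ u) ∧
      (∀ w ∈ S₁, pos₁ u < pos₁ w → σ₁ w ≠ σ₁ u) ∧
        ∀ w ∈ S₂, pos₂ w < pos₂ v → σ₂ w ≠ σ₁ u) :
    ∃ pos σ : Fin n → ℕ, Lay par (S₁ ∪ S₂) pos σ ∧ (∀ v ∈ S₁, pos v = pos₁ v ∧ σ v = σ₁ v) ∧
      ∀ v ∈ S₂, pos v = S₁.card + pos₂ v ∧ σ v = σ₂ v := by
  classical
  obtain ⟨pos, hpos⟩ : ∃ pos : Fin n → ℕ, pos = fun v =>
    if v ∈ S₁ then pos₁ v else S₁.card + pos₂ v := ⟨_, rfl⟩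
  obtain ⟨σ, hσ⟩ : ∃ σ : Fin n → ℕ, σ = fun v => if v ∈ S₁ then σ₁ v else σ₂ v := ⟨_, rfl⟩
  have p1 : ∀ v ∈ S₁, pos v = pos₁ v ∧ σ v = σ₁ v := by
    intro v hv
    rw [hpos, hσ]
    simp only
    rw [if_pos hv, if_pos hv]
    exact ⟨rfl, rfl⟩
  have p2 : ∀ v ∈ S₂, pos v = S₁.card + pos₂ v ∧ σ v = σ₂ v := by
    intro v hv
    have hv' : v ∉ S₁ := Finset.disjoint_right.1 hd hv
    rw [hpos, hσ]
    simp only
    rw [if_neg hv', if_neg hv']
    exact ⟨rfl, rfl⟩
  refine ⟨pos, σ, ⟨?_, ?_, ?_⟩, p1, p2⟩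
  · intro v hv w hw h
    rcases Finset.mem_union.1 hv with hv | hv <;> rcases Finset.mem_union.1 hw with hw | hw
    · rw [(p1 v hv).1, (p1 w hw).1] at h
      exact h₁.1 v hv w hw h
    · rw [(p1 v hv).1, (p2 w hw).1] at h
      have := h₁.2.1 v hv
      omega
    · rw [(p2 v hv).1, (p1 w hw).1] at h
      have := h₁.2.1 w hw
      omega
    · rw [(p2 v hv).1, (p2 w hw).1] at h
      exact h₂.1 v hv w hw (by omega)
  · intro v hv
    rw [Finset.card_union_of_disjoint hd]
    rcases Finset.mem_union.1 hv with hv | hv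
    · rw [(p1 v hv).1]
      have := h₁.2.1 v hv
      omega
    · rw [(p2 v hv).1]
      have := h₂.2.1 v hv
      omega
  · intro u hu v hv h
    rcases Finset.mem_union.1 hu with hu | hu <;> rcases Finset.mem_union.1 hv with hv | hv
    · obtain ⟨a1, a2, a3⟩ := h₁.2.2 u hu v hv h
      rw [(p1 u hu).1, (p1 v hv).1, (p1 u hu).2, (p1 v hv).2]
      refine ⟨a1, a2, fun w hw b1 b2 => ?_⟩
      rcases Finset.mem_union.1 hw with hw | hw
      · rw [(p1 w hw).1] at b1 b2
        rw [(p1 w hw).2]
        exact a3 w hw b1 b2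
      · rw [(p2 w hw).1] at b2
        have := h₁.2.1 v hv
        omega
    · obtain ⟨a1, a2, a3⟩ := hx u hu v hv h
      have a4 := h₁.2.1 u hu
      rw [(p1 u hu).1, (p2 v hv).1, (p1 u hu).2, (p2 v hv).2]
      refine ⟨by omega, a1, fun w hw b1 b2 => ?_⟩
      rcases Finset.mem_union.1 hw with hw | hw
      · rw [(p1 w hw).1] at b1
        rw [(p1 w hw).2]
        exact a2 w hw b1
      · rw [(p2 w hw).1] at b2
        rw [(p2 w hw).2]
        exact a3 w hw (by omega)
    · exact absurd h (hno u hu v hv)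
    · obtain ⟨a1, a2, a3⟩ := h₂.2.2 u hu v hv h
      rw [(p2 u hu).1, (p2 v hv).1, (p2 u hu).2, (p2 v hv).2]
      refine ⟨by omega, a2, fun w hw b1 b2 => ?_⟩
      rcases Finset.mem_union.1 hw with hw | hw
      · rw [(p1 w hw).1] at b1
        have := h₁.2.1 w hw
        omega
      · rw [(p2 w hw).1] at b1 b2
        rw [(p2 w hw).2]
        exact a3 w hw (by omega) (by omega)

/-- The statement for one tree. -/
def TS (k : ℕ) : Prop := ∀ (v : Fin n) (b s : ℕ), (D par v).card ≤ k → (s = b ∨ s = b + 1) →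
  ∃ pos σ : Fin n → ℕ, Lay par (D par v) pos σ ∧ pos v = 0 ∧ σ v = s ∧
    ∀ w ∈ D par v, b ≤ σ w ∧ σ w ≤ b + 1 + 2 * Nat.log 2 (D par v).card

/-- The statement for a forest. -/
def FS (k : ℕ) : Prop := ∀ S : Finset (Fin n), Cl par S → S.card ≤ k → ∀ b m : ℕ,
  (∀ r ∈ S, Rt par S r → (D par r).card ≤ m) →
  ∃ pos σ : Fin n → ℕ, Lay par S pos σ ∧ (∀ r ∈ S, Rt par S r → σ r = b) ∧
    ∀ w ∈ S, b ≤ σ w ∧ σ w ≤ b + 1 + 2 * Nat.log 2 m

theorem tree_step {rk : Fin n → ℕ} (hrk : ∀ u v, par v = some u → rk u < rk v) {k : ℕ}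
    (hT : TS par k) (hF : FS par k) : TS par (k + 1) := by
  classical
  intro v b s hk hs
  have hv := self_mem par v
  have hvv : par v ≠ some v := fun h => absurd (hrk _ _ h) (lt_irrefl _)
  have hlayv : Lay par {v} (fun _ => 0) (fun _ => s) := by
    refine ⟨?_, ?_, ?_⟩
    · intro x hx y hy _
      rw [Finset.mem_singleton] at hx hy
      rw [hx, hy]
    · intro x _
      simp
    · intro x hx y hy h
      rw [Finset.mem_singleton] at hx hy
      subst hx
      subst hy
      exact absurd h hvv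
  obtain ⟨S', hS'⟩ : ∃ S', S' = D par v \ {v} := ⟨_, rfl⟩
  have hmS' : ∀ x, x ∈ S' ↔ x ∈ D par v ∧ x ≠ v := by
    intro x
    rw [hS', Finset.mem_sdiff, Finset.mem_singleton]
  by_cases hemp : S' = ∅
  · have hDv : D par v = {v} := by
      ext x
      rw [Finset.mem_singleton]
      constructor
      · intro hx
        by_contra hne
        have : x ∈ S' := (hmS' x).2 ⟨hx, hne⟩
        rw [hemp] at this
        exact absurd this (Finset.notMem_empty x)
      · rintro rfl
        exact hv
    refine ⟨fun _ => 0, fun _ => s, ?_, rfl, rfl, ?_⟩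
    · rw [hDv]
      exact hlayv
    · intro w _
      simp only
      omega
  · have hcl' : Cl par S' := by
      intro x hx y hy
      rw [hmS'] at hx ⊢
      refine ⟨D_child par hx.1 hy, ?_⟩
      rintro rfl
      have h1 := rk_le par hrk hx.1
      have h2 := hrk _ _ hy
      omega
    have hroot : ∀ x ∈ S', Rt par S' x → par x = some v := by
      intro x hx hr
      rw [hmS'] at hx
      obtain ⟨w, hw, hw'⟩ := D_par par hx.1 hx.2
      by_cases hwv : w = v
      · rw [← hwv]
        exact hw'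
      · exact absurd hw' (hr w ((hmS' w).2 ⟨hw, hwv⟩))
    -- the heavy child
    obtain ⟨r₀, hr₀, hr₀'⟩ := exists_rt par hrk (Finset.nonempty_iff_ne_empty.2 hemp)
    obtain ⟨h, hh, hmax⟩ := (S'.filter (Rt par S')).exists_max_image
      (fun x => (D par x).card) ⟨r₀, Finset.mem_filter.2 ⟨hr₀, hr₀'⟩⟩
    rw [Finset.mem_filter] at hh
    obtain ⟨hhS, hhR⟩ := hh
    have hph := hroot h hhS hhR
    obtain ⟨S₁, hS₁⟩ : ∃ S₁, S₁ = S' \ D par h := ⟨_, rfl⟩
    have hcl₁ : Cl par S₁ := by
      rw [hS₁]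
      exact cl_sdiff par hcl' hhR
    have hDh : D par h ⊆ S' := D_sub par hcl' hhS
    have hS'c : S'.card + 1 = (D par v).card := by
      rw [hS', Finset.card_sdiff_of_subset (Finset.singleton_subset_iff.2 hv),
        Finset.card_singleton]
      have : 0 < (D par v).card := Finset.card_pos.2 ⟨v, hv⟩
      omega
    have hcard : S₁.card + (D par h).card = S'.card := by
      rw [hS₁]
      exact Finset.card_sdiff_add_card_eq_card hDh
    have hh1 : 0 < (D par h).card := Finset.card_pos.2 ⟨h, self_mem par h⟩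
    have hrt₁ : ∀ x ∈ S₁, Rt par S₁ x → x ∈ S' ∧ Rt par S' x := by
      intro x hx hr
      rw [hS₁] at hx hr
      exact ⟨(Finset.mem_sdiff.1 hx).1, rt_sdiff par hx hr⟩
    obtain ⟨pos₁, σ₁, hL₁, hR₁, hB₁⟩ := hF S₁ hcl₁ (by omega) (s + 1) ((D par v).card / 2) (by
      intro x hx hr
      obtain ⟨hx', hr'⟩ := hrt₁ x hx hr
      have h1 := hmax x (Finset.mem_filter.2 ⟨hx', hr'⟩)
      have h2 : (D par x).card ≤ S₁.card := Finset.card_le_card (D_sub par hcl₁ hx)
      have h3 : (D par x).card ≤ (D par h).card := h1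
      rw [Nat.le_div_iff_mul_le (by norm_num)]
      omega)
    obtain ⟨s', hs'⟩ : ∃ s', s' = 2 * b + 1 - s := ⟨_, rfl⟩
    obtain ⟨pos₂, σ₂, hL₂, hp₂, hR₂, hB₂⟩ := hT h b s' (by omega) (by omega)
    have hlog : 1 ≤ Nat.log 2 (D par v).card :=
      Nat.log_pos (by norm_num) (by omega)
    have hlogd : Nat.log 2 ((D par v).card / 2) = Nat.log 2 (D par v).card - 1 :=
      Nat.log_div_base 2 _
    rw [hlogd] at hB₁
    have hlogh : Nat.log 2 (D par h).card ≤ Nat.log 2 (D par v).card :=
      Nat.log_mono_right (by omega)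
    have hvS₁ : v ∉ S₁ := by
      intro hc
      rw [hS₁, Finset.mem_sdiff, hmS'] at hc
      exact hc.1.2 rfl
    have hd1 : Disjoint {v} S₁ := Finset.disjoint_singleton_left.2 hvS₁
    -- first join
    obtain ⟨pos₃, σ₃, hL₃, q1, q2⟩ := join par hd1 hlayv hL₁ (by
      intro u hu x hx hc
      rw [Finset.mem_singleton] at hx
      subst hx
      have h1 : u ∈ D par x := by
        rw [hS₁, Finset.mem_sdiff, hmS'] at hu
        exact hu.1.1
      have h2 := rk_le par hrk h1
      have h3 := hrk _ _ hc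
      omega) (by
      intro u hu x hx hc
      rw [Finset.mem_singleton] at hu
      subst hu
      have hrx : Rt par S₁ x := by
        intro y hy hc'
        rw [hc] at hc'
        have e := Option.some.inj hc'
        exact hvS₁ (e ▸ hy)
      refine ⟨Or.inl (hR₁ x hx hrx).symm, ?_, ?_⟩
      · intro w _ hlt
        exact absurd hlt (lt_irrefl _)
      · intro w hw _
        have := (hB₁ w hw).1
        omega)
    have q1v := q1 v (Finset.mem_singleton_self v)
    have hmem3 : ∀ x, x ∈ {v} ∪ S₁ ↔ x = v ∨ x ∈ S₁ := by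
      intro x
      rw [Finset.mem_union, Finset.mem_singleton]
    have hd2 : Disjoint ({v} ∪ S₁) (D par h) := by
      rw [Finset.disjoint_left]
      intro x hx hxh
      rcases (hmem3 x).1 hx with hx | hx
      · subst hx
        exact ((hmS' x).1 (hDh hxh)).2 rfl
      · rw [hS₁, Finset.mem_sdiff] at hx
        exact hx.2 hxh
    have hDv : D par v = ({v} ∪ S₁) ∪ D par h := by
      ext x
      rw [Finset.mem_union, hmem3]
      constructor
      · intro hx
        by_cases h1 : x = v
        · exact Or.inl (Or.inl h1)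
        · by_cases h2 : x ∈ D par h
          · exact Or.inr h2
          · refine Or.inl (Or.inr ?_)
            rw [hS₁, Finset.mem_sdiff, hmS']
            exact ⟨⟨hx, h1⟩, h2⟩
      · rintro ((rfl | hx) | hx)
        · exact hv
        · rw [hS₁, Finset.mem_sdiff, hmS'] at hx
          exact hx.1.1
        · exact ((hmS' x).1 (hDh hx)).1
    -- second join
    obtain ⟨pos, σ, hL, g1, g2⟩ := join par hd2 hL₃ hL₂ (by
      intro u hu x hx hc
      have h1 : x ∈ D par h := D_child par hu hc
      exact absurd hx (Finset.disjoint_right.1 hd2 h1)) (by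
      intro u hu x hx hc
      have hxh : x = h := by
        by_contra hne
        obtain ⟨w, hw, hw'⟩ := D_par par hx hne
        rw [hc] at hw'
        have e := Option.some.inj hw'
        exact absurd hu (Finset.disjoint_right.1 hd2 (e ▸ hw))
      subst hxh
      have huv : u = v := by
        rw [hph] at hc
        exact (Option.some.inj hc).symm
      subst huv
      refine ⟨?_, ?_, ?_⟩
      · rw [q1v.2, hR₂]
        omega
      · intro w hw hlt
        rcases (hmem3 w).1 hw with hw | hw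
        · subst hw
          exact absurd hlt (lt_irrefl _)
        · rw [(q2 w hw).2, q1v.2]
          have := (hB₁ w hw).1
          omega
      · intro w _ hlt
        rw [hp₂] at hlt
        exact absurd hlt (Nat.not_lt_zero _))
    have hvm : v ∈ {v} ∪ S₁ := (hmem3 v).2 (Or.inl rfl)
    refine ⟨pos, σ, ?_, ?_, ?_, ?_⟩
    · rw [hDv]
      exact hL
    · rw [(g1 v hvm).1, q1v.1]
    · rw [(g1 v hvm).2, q1v.2]
    · intro w hw
      rw [hDv, Finset.mem_union, hmem3] at hw
      rcases hw with (rfl | hw) | hw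
      · rw [(g1 w hvm).2, q1v.2]
        omega
      · rw [(g1 w ((hmem3 w).2 (Or.inr hw))).2, (q2 w hw).2]
        have := hB₁ w hw
        omega
      · rw [(g2 w hw).2]
        have := hB₂ w hw
        omega

theorem forest_step {rk : Fin n → ℕ} (hrk : ∀ u v, par v = some u → rk u < rk v) {k : ℕ}
    (hT : TS par (k + 1)) (hF : FS par k) : FS par (k + 1) := by
  classical
  intro S hcl hk b m hm
  by_cases hemp : S = ∅
  · subst hemp
    refine ⟨fun _ => 0, fun _ => 0, ⟨?_, ?_, ?_⟩, ?_, ?_⟩ <;>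
      intro x hx <;> exact absurd hx (Finset.notMem_empty x)
  · obtain ⟨r, hr, hrt⟩ := exists_rt par hrk (Finset.nonempty_iff_ne_empty.2 hemp)
    have hsub : D par r ⊆ S := D_sub par hcl hr
    have h1 : 0 < (D par r).card := Finset.card_pos.2 ⟨r, self_mem par r⟩
    have h2 : (S \ D par r).card + (D par r).card = S.card :=
      Finset.card_sdiff_add_card_eq_card hsub
    obtain ⟨pos₁, σ₁, hL₁, hp₁, hR₁, hB₁⟩ := hT r b b (by omega) (Or.inl rfl)
    obtain ⟨pos₂, σ₂, hL₂, hR₂, hB₂⟩ := hF (S \ D par r) (cl_sdiff par hcl hrt) (by omega) b m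
      (fun x hx hxr => hm x (Finset.mem_sdiff.1 hx).1 (rt_sdiff par hx hxr))
    have hd : Disjoint (D par r) (S \ D par r) := Finset.disjoint_sdiff
    have hS : D par r ∪ (S \ D par r) = S := Finset.union_sdiff_of_subset hsub
    obtain ⟨pos, σ, hL, g1, g2⟩ := join par hd hL₁ hL₂ (by
      intro u hu x hx hc
      by_cases hxr : x = r
      · subst hxr
        exact hrt u (Finset.mem_sdiff.1 hu).1 hc
      · obtain ⟨w, hw, hw'⟩ := D_par par hx hxr
        rw [hc] at hw'
        have e := Option.some.inj hw'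
        exact (Finset.mem_sdiff.1 hu).2 (e ▸ hw)) (by
      intro u hu x hx hc
      exact absurd (D_child par hu hc) (Finset.mem_sdiff.1 hx).2)
    rw [hS] at hL
    refine ⟨pos, σ, hL, ?_, ?_⟩
    · intro x hx hxr
      by_cases hxD : x ∈ D par r
      · have hxe : x = r := by
          by_contra hne
          obtain ⟨w, hw, hw'⟩ := D_par par hxD hne
          exact hxr w (hsub hw) hw'
        subst hxe
        rw [(g1 x hxD).2, hR₁]
      · have hx' : x ∈ S \ D par r := Finset.mem_sdiff.2 ⟨hx, hxD⟩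
        rw [(g2 x hx').2]
        exact hR₂ x hx' fun u hu => hxr u (Finset.mem_sdiff.1 hu).1
    · intro x hx
      by_cases hxD : x ∈ D par r
      · rw [(g1 x hxD).2]
        have h3 := hB₁ x hxD
        have h4 : Nat.log 2 (D par r).card ≤ Nat.log 2 m := Nat.log_mono_right (hm r hr hrt)
        omega
      · have hx' : x ∈ S \ D par r := Finset.mem_sdiff.2 ⟨hx, hxD⟩
        rw [(g2 x hx').2]
        exact hB₂ x hx'

theorem all {rk : Fin n → ℕ} (hrk : ∀ u v, par v = some u → rk u < rk v) (k : ℕ) :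
    TS par k ∧ FS par k := by
  induction k with
  | zero =>
    refine ⟨?_, ?_⟩
    · intro v b s hk _
      have : 0 < (D par v).card := Finset.card_pos.2 ⟨v, self_mem par v⟩
      omega
    · intro S _ hk b m _
      have hS : S = ∅ := Finset.card_eq_zero.1 (by omega)
      subst hS
      refine ⟨fun _ => 0, fun _ => 0, ⟨?_, ?_, ?_⟩, ?_, ?_⟩ <;>
        intro x hx <;> exact absurd hx (Finset.notMem_empty x)
  | succ k ih =>
    have h1 := tree_step par hrk ih.1 ih.2
    exact ⟨h1, forest_step par hrk h1 ih.2⟩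

end LayoutAux

theorem exists_layout_of_parent {n : ℕ} (par : Fin n → Option (Fin n)) (rk : Fin n → ℕ)
    (hrk : ∀ u v, par v = some u → rk u < rk v) :
    ∃ (π : Equiv.Perm (Fin n)) (p : ℕ → ℕ),
      (∀ t, t < n → 1 ≤ p t ∧ p t ≤ 2 * Nat.log 2 n + 2) ∧
      ∀ s t : Fin n, par (π t) = some (π s) →
        s < t ∧ (p s + 1 = p t ∨ p t + 1 = p s) ∧
          ∀ u : ℕ, s.1 < u → u < t.1 → p u ≠ p s := by
  obtain ⟨pos, σ, hL, _, hB⟩ := (LayoutAux.all par hrk n).2 Finset.univ
    (fun _ _ w _ => Finset.mem_univ w) (by simp) 1 n (by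
      intro r _ _
      exact (Finset.card_le_univ _).trans (by simp))
  have hlt : ∀ v, pos v < n := by
    intro v
    have := hL.2.1 v (Finset.mem_univ v)
    simpa using this
  have hinj : Function.Injective (fun v => (⟨pos v, hlt v⟩ : Fin n)) := by
    intro v w h
    exact hL.1 v (Finset.mem_univ v) w (Finset.mem_univ w) (by simpa using h)
  obtain ⟨e, he⟩ : ∃ e : Equiv.Perm (Fin n), ∀ v, e v = ⟨pos v, hlt v⟩ :=
    ⟨Equiv.ofBijective _ (Finite.injective_iff_bijective.1 hinj), fun _ => rfl⟩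
  have hpe : ∀ t : Fin n, pos (e.symm t) = t.1 := by
    intro t
    have h1 := he (e.symm t)
    rw [Equiv.apply_symm_apply] at h1
    exact (congrArg Fin.val h1).symm
  refine ⟨e.symm, fun t => if h : t < n then σ (e.symm ⟨t, h⟩) else 1, ?_, ?_⟩
  · intro t ht
    simp only [dif_pos ht]
    have := hB (e.symm ⟨t, ht⟩) (Finset.mem_univ _)
    omega
  · intro s t h
    obtain ⟨h1, h2, h3⟩ := hL.2.2 (e.symm s) (Finset.mem_univ _) (e.symm t)
      (Finset.mem_univ _) h
    rw [hpe, hpe] at h1
    simp only [dif_pos s.2, dif_pos t.2, Fin.eta]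
    refine ⟨h1, h2, ?_⟩
    intro u hu1 hu2
    have hun : u < n := hu2.trans t.2
    simp only [dif_pos hun]
    have h4 := hpe ⟨u, hun⟩
    exact h3 (e.symm ⟨u, hun⟩) (Finset.mem_univ _) (by rw [h4, hpe]; exact hu1)
      (by rw [h4, hpe]; exact hu2)

end Pool.Agent.OrdForest
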