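import Mathlib

/-!
# Parents in a forest

Proof of `exists_parent`.  Choose a root `ρ c` of every connected component `c` of `G` and put
`rk v = G.dist (ρ (component of v)) v`.  Ends of an edge lie in the same component and by
`SimpleGraph.IsAcyclic.dist_eq_dist_add_one_of_adj_of_reachable` (see also
`SimpleGraph.IsAcyclic.dist_ne_of_adj`) their ranks differ by one.  Put `par v = some u` if there
is a neighbour `u` of `v` with `rk u < rk v` (choose one), and `par v = none` otherwise.  The
neighbour is unique: if `u`, `u'` are neighbours of `v` with smaller distance from the root then a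
shortest path from the root to `u` followed by the edge `u v` is a path (length = distance) from
the root to `v`, the same for `u'`, and the paths are equal because `G` is acyclic
(`IsAcyclic.path_unique`), hence `u = u'` (penultimate vertex).
-/

set_option autoImplicit false

namespace Pool.Agent.OrdForest

theorem exists_parent {n : ℕ} (G : SimpleGraph (Fin n)) (hG : G.IsAcyclic) :
    ∃ (par : Fin n → Option (Fin n)) (rk : Fin n → ℕ),
      (∀ u v, par v = some u → rk u < rk v) ∧
      ∀ v w, G.Adj v w → par v = some w ∨ par w = some v := by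
  classical
  obtain ⟨rt, hrt⟩ : ∃ rt : Fin n → Fin n, (∀ v, G.Reachable (rt v) v) ∧
      ∀ v w, G.Adj v w → rt v = rt w := by
    refine ⟨fun v => (G.connectedComponentMk v).out, fun v => ?_, fun v w h => ?_⟩
    · exact SimpleGraph.ConnectedComponent.exact (Quot.out_eq (G.connectedComponentMk v))
    · have e : G.connectedComponentMk v = G.connectedComponentMk w :=
        SimpleGraph.ConnectedComponent.sound h.reachable
      simp only [e]
  obtain ⟨hr, he⟩ := hrt
  obtain ⟨rk, hrk⟩ : ∃ rk : Fin n → ℕ, rk = fun v => G.dist (rt v) v := ⟨_, rfl⟩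
  have hstep : ∀ v w, G.Adj v w → rk v = rk w + 1 ∨ rk w = rk v + 1 := by
    intro v w h
    have h1 := hG.dist_eq_dist_add_one_of_adj_of_reachable (rt v) h (hr v)
    rw [hrk]
    simp only
    rw [← he v w h]
    exact h1
  have huniq : ∀ v w w', G.Adj v w → G.Adj v w' → rk w < rk v → rk w' < rk v → w = w' := by
    intro v w w' h h' hw hw'
    have key : ∀ x, G.Adj v x → rk x < rk v → ∃ p : G.Walk (rt v) v, p.IsPath ∧
        p.penultimate = x := by
      intro x hx hlt
      obtain ⟨p, hp⟩ := (hr x).exists_walk_length_eq_dist
      have e := he v x hx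
      obtain ⟨p', hp'⟩ : ∃ p' : G.Walk (rt v) x, p'.length = rk x := by
        rw [e, hrk]
        exact ⟨p, hp⟩
      refine ⟨p'.concat hx.symm, ?_, SimpleGraph.Walk.penultimate_concat _ _⟩
      apply SimpleGraph.Walk.isPath_of_length_eq_dist
      rw [SimpleGraph.Walk.length_concat, hp']
      have h2 : G.dist (rt v) v = rk v := by rw [hrk]
      rw [h2]
      rcases hstep v x hx with h3 | h3 <;> omega
    obtain ⟨p, hp, e⟩ := key w h hw
    obtain ⟨p', hp', e'⟩ := key w' h' hw'
    have h3 := hG.path_unique ⟨p, hp⟩ ⟨p', hp'⟩
    have h4 : p = p' := congrArg Subtype.val h3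
    rw [← e, ← e', h4]
  refine ⟨fun v => if h : ∃ u, G.Adj v u ∧ rk u < rk v then some h.choose else none, rk,
    fun u v huv => ?_, fun v w hvw => ?_⟩
  · simp only at huv
    split_ifs at huv with h
    have h1 : h.choose = u := Option.some.inj huv
    rw [← h1]
    exact h.choose_spec.2
  · have key : ∀ v w, G.Adj v w → rk w < rk v →
        (if h : ∃ u, G.Adj v u ∧ rk u < rk v then some h.choose else none) = some w := by
      intro v w hvw hlt
      have h : ∃ u, G.Adj v u ∧ rk u < rk v := ⟨w, hvw, hlt⟩
      rw [dif_pos h]
      exact congrArg some (huniq v _ w h.choose_spec.1 hvw h.choose_spec.2 hlt)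
    rcases hstep v w hvw with h | h
    · exact Or.inl (key v w hvw (by omega))
    · exact Or.inr (key w v hvw.symm (by omega))

end Pool.Agent.OrdForest
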