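import Mathlib
import Pool.Agent.Lib.MP_5b01b8_co_FO.Host
import Pool.Agent.Lib.MP_5b01b8_co_FO.Layout
import Pool.Agent.Lib.MP_5b01b8_co_FO.Parent
import Pool.Agent.Lib.MP_5b01b8_co_h12.Main

/-!
# Forests have an ordering with nearly linear ordered Ramsey number
-/

set_option autoImplicit false

namespace Pool.Agent.OrdForest

open Finset

theorem cnt_none (P : ℕ → ℕ → Prop) (X Y : Finset ℕ) (h : ∀ x y, ¬ P x y) : cnt P X Y = 0 := by
  classical
  unfold cnt
  rw [Finset.card_eq_zero, Finset.eq_empty_iff_forall_notMem]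
  intro z hz
  exact h _ _ (Finset.mem_filter.1 hz).2

theorem forest_ordering : ∃ C : ℕ → ℕ, ∀ (n : ℕ) (G : SimpleGraph (Fin n)),
    G.IsAcyclic → ∃ σ : Fin n ≃ Fin n, ∀ r : ℕ, 0 < r →
      ∀ N : ℕ, C r * n * (Nat.log 2 n + 1) ^ r ≤ N →
        ∀ c : Fin N → Fin N → Fin r, ∃ (g : Fin n ↪o Fin N) (b : Fin r),
          ∀ v w : Fin n, G.Adj v w → σ v < σ w → c (g (σ v)) (g (σ w)) = b := by
  classical
  choose E C₀ hE hC₀ hhost using host
  refine ⟨fun r => 4 * C₀ r * 4 ^ r, fun n G hG => ?_⟩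
  obtain ⟨par, rk, hrk, hpar⟩ := exists_parent G hG
  obtain ⟨π, p, hp, hlay⟩ := exists_layout_of_parent par rk hrk
  -- the ordering
  let key : Fin n → ℕ ×ₗ ℕ ×ₗ ℕ := fun v =>
    toLex (p (π.symm v).1 % 2, toLex (p (π.symm v).1, (π.symm v).1))
  have hkey : Function.Injective key := by
    intro v w hvw
    have h1 := congrArg (fun q => (ofLex (ofLex q).2).2) hvw
    exact π.symm.injective (Fin.ext h1)
  obtain ⟨σ, hσ⟩ := OrdPathwidth.exists_sort key hkey
  refine ⟨σ, fun r hr N hN c => ?_⟩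
  rcases Nat.eq_zero_or_pos n with rfl | hn
  · exact ⟨⟨⟨fun x => x.elim0, fun x => x.elim0⟩, fun {x} => x.elim0⟩, ⟨0, hr⟩,
      fun v => v.elim0⟩
  set l : ℕ := Nat.log 2 n with hl
  set m : ℕ := 2 * l + 3 with hm
  let a : ℕ → ℕ := fun t => if t < n then p t else 1
  have ha : ∀ t, 1 ≤ a t ∧ a t < m := by
    intro t
    show 1 ≤ (if t < n then p t else 1) ∧ (if t < n then p t else 1) < m
    by_cases ht : t < n
    · rw [if_pos ht]
      have h1 := hp t ht
      omega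
    · rw [if_neg ht]
      omega
  have hat : ∀ t, t < n → a t = p t := fun t ht => if_pos ht
  set h₀ : ℕ := N / 2 with hh₀
  set X : Finset ℕ := Finset.range h₀ with hX
  set Y : Finset ℕ := Finset.Ico h₀ (2 * h₀) with hY
  have hXc : X.card = h₀ := Finset.card_range _
  have hYc : Y.card = h₀ := by rw [hY, Nat.card_Ico]; omega
  have hsize : C₀ r * (n + 1) * (m + 1) ^ r ≤ h₀ := by
    rw [hh₀, Nat.le_div_iff_mul_le (by norm_num)]
    refine le_trans ?_ hN
    have h1 : (m + 1) ^ r ≤ (4 * (l + 1)) ^ r := Nat.pow_le_pow_left (by omega) _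
    rw [mul_pow] at h1
    calc C₀ r * (n + 1) * (m + 1) ^ r * 2 ≤ C₀ r * (2 * n) * (4 ^ r * (l + 1) ^ r) * 2 := by
          apply Nat.mul_le_mul_right
          exact Nat.mul_le_mul (Nat.mul_le_mul_left _ (by omega)) h1
      _ = 4 * C₀ r * 4 ^ r * n * (l + 1) ^ r := by ring
  have h2h₀ : 2 * h₀ ≤ N := by omega
  let col : ℕ → ℕ → Fin r := fun x y =>
    if h : x < N ∧ y < N then c ⟨x, h.1⟩ ⟨y, h.2⟩ else ⟨0, hr⟩
  obtain ⟨b, -, e, he1, he2, he3, hstep⟩ := hhost r (Fin r) col Finset.univ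
    (by rw [Finset.card_univ, Fintype.card_fin]) n m hn a ha X Y
    (by rw [hXc]; exact hsize) (by rw [hYc]; exact hsize)
    (by
      rw [cnt_none _ _ _ (fun x y h => h (Finset.mem_univ _))]
      exact Nat.zero_le _)
  have hlt : ∀ t ≤ n, ∀ i ≤ m, e t i < N := by
    intro t ht i hi
    rcases Nat.mod_two_eq_zero_or_one i with h | h
    · have h1 := (he1 t ht i hi).1 h
      rw [hX, Finset.mem_range] at h1
      omega
    · have h1 := (he1 t ht i hi).2 h
      rw [hY, Finset.mem_Ico] at h1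
      omega
  have hpm : ∀ t, t < n → p t ≤ m := by
    intro t ht
    have := hp t ht
    omega
  let H : Fin n → Fin N := fun t => ⟨e (t.1 + 1) (p t.1), hlt _ t.2 _ (hpm _ t.2)⟩
  have hmono : ∀ s t : Fin n, (p s.1 % 2 < p t.1 % 2 ∨ (p s.1 % 2 = p t.1 % 2 ∧
      (p s.1 < p t.1 ∨ (p s.1 = p t.1 ∧ s.1 < t.1)))) → H s < H t := by
    intro s t hst
    rw [Fin.lt_def]
    show e (s.1 + 1) (p s.1) < e (t.1 + 1) (p t.1)
    rcases hst with h | ⟨h, h' | ⟨h', h''⟩⟩
    · have h1 := (he1 (s.1 + 1) s.2 (p s.1) (hpm _ s.2)).1 (by omega)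
      have h2 := (he1 (t.1 + 1) t.2 (p t.1) (hpm _ t.2)).2 (by omega)
      rw [hX, Finset.mem_range] at h1
      rw [hY, Finset.mem_Ico] at h2
      omega
    · exact he2 _ s.2 _ t.2 _ _ h' (hpm _ t.2) h
    · rw [h']
      refine lt_of_le_of_lt (chain_mono hstep (p t.1) (s.1 + 1) t.1 h'' t.2.le) ?_
      have h1 := (hstep t.1 t.2).1
      rwa [hat _ t.2] at h1
  -- colours
  have hcol : ∀ s t : Fin n, par (π t) = some (π s) →
      (p s.1 % 2 = 0 → p t.1 % 2 = 1 → c (H s) (H t) = b) ∧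
      (p t.1 % 2 = 0 → p s.1 % 2 = 1 → c (H t) (H s) = b) := by
    intro s t hst
    obtain ⟨hlt', hadj, hkeep⟩ := hlay s t hst
    have hsc : e (t.1 + 1) (p s.1) = e (s.1 + 1) (p s.1) := by
      apply chain_const hstep (p s.1) (s.1 + 1) (t.1 + 1) (by have := Fin.lt_def.1 hlt'; omega) t.2
      intro u hu hut
      rw [hat u (by have := t.2; omega)]
      rcases Nat.lt_or_ge u t.1 with h | h
      · exact hkeep u (by omega) h
      · obtain rfl : u = t.1 := by omega
        omega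
    have hHs : H s = ⟨e (t.1 + 1) (p s.1), hlt _ t.2 _ (hpm _ s.2)⟩ := by
      apply Fin.ext
      exact hsc.symm
    have hcc : ∀ x y : ℕ, (hx : x < N) → (hy : y < N) → col x y = b →
        c ⟨x, hx⟩ ⟨y, hy⟩ = b := by
      intro x y hx hy hxy
      show c ⟨x, hx⟩ ⟨y, hy⟩ = b
      rw [← hxy]
      show _ = (if h : x < N ∧ y < N then c ⟨x, h.1⟩ ⟨y, h.2⟩ else ⟨0, hr⟩)
      rw [dif_pos ⟨hx, hy⟩]
    have hps := hpm _ s.2
    have hpt := hpm _ t.2
    refine ⟨fun h0 h1 => ?_, fun h0 h1 => ?_⟩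
    · rw [hHs]
      apply hcc
      rcases hadj with h | h
      · have h2 := (he3 (t.1 + 1) t.2 (p s.1) (by omega)).1 h0
        rwa [h] at h2
      · have h2 := (he3 (t.1 + 1) t.2 (p t.1) (by omega)).2 h1
        rwa [h] at h2
    · rw [hHs]
      apply hcc
      rcases hadj with h | h
      · have h2 := (he3 (t.1 + 1) t.2 (p s.1) (by omega)).2 h1
        rwa [h] at h2
      · have h2 := (he3 (t.1 + 1) t.2 (p t.1) (by omega)).1 h0
        rwa [h] at h2
  have hkeylt : ∀ v w : Fin n, σ v < σ w →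
      (p (π.symm v).1 % 2 < p (π.symm w).1 % 2 ∨ (p (π.symm v).1 % 2 = p (π.symm w).1 % 2 ∧
        (p (π.symm v).1 < p (π.symm w).1 ∨ (p (π.symm v).1 = p (π.symm w).1 ∧
          (π.symm v).1 < (π.symm w).1)))) := by
    intro v w hvw
    have h1 := (hσ v w).1 hvw
    rcases Prod.Lex.toLex_lt_toLex.1 h1 with h2 | ⟨h2, h3⟩
    · exact Or.inl h2
    · exact Or.inr ⟨h2, Prod.Lex.toLex_lt_toLex.1 h3⟩
  let g' : Fin n → Fin N := fun q => H (π.symm (σ.symm q))
  have hg' : StrictMono g' := by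
    intro q q' hq
    have h1 := hkeylt (σ.symm q) (σ.symm q') (by simpa using hq)
    exact hmono _ _ h1
  refine ⟨OrderEmbedding.ofStrictMono g' hg', b, fun v w hadj hvw => ?_⟩
  have hgv : ∀ v, OrderEmbedding.ofStrictMono g' hg' (σ v) = H (π.symm v) := by
    intro v
    show H (π.symm (σ.symm (σ v))) = _
    rw [Equiv.symm_apply_apply]
  rw [hgv, hgv]
  have hk := hkeylt v w hvw
  rcases hpar v w hadj with h | h
  · -- `w` is the parent of `v`
    have h1 : par (π (π.symm v)) = some (π (π.symm w)) := by simpa using h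
    have h2 := hlay _ _ h1
    have h3 : p (π.symm v).1 % 2 = 0 ∧ p (π.symm w).1 % 2 = 1 := by omega
    exact (hcol _ _ h1).2 h3.1 h3.2
  · have h1 : par (π (π.symm w)) = some (π (π.symm v)) := by simpa using h
    have h2 := hlay _ _ h1
    have h3 : p (π.symm v).1 % 2 = 0 ∧ p (π.symm w).1 % 2 = 1 := by omega
    exact (hcol _ _ h1).1 h3.1 h3.2

end Pool.Agent.OrdForest
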